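import Pool.Agent.D0H29.JT.Scheme

/-!
# Estimates for the tree of averages (helper file for MP_245e03_an, Q2)
-/

set_option autoImplicit false

open Set Filter Topology
open Pool.Agent.R277.JT

namespace Pool.Agent.D0H29.JT

/-- a scheme -/
structure Sch (Φ : Fam) where
  f : ℕ → St
  inv : ∀ n, Inv Φ n (f n)
  rl : ∀ n, Rl Φ n (f n) (f (n + 1))

namespace Sch

variable {Φ : Fam} (S : Sch Φ)

/-- levels -/
def kk (n : ℕ) : ℕ := (S.f n).k

/-- sets -/
def II (α : List Bool) : Set Br := (S.f α.length).I α

/-- roots -/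
def RR (α : List Bool) : Finset Br := (S.f α.length).R α

/-- main nodes -/
def pp (α : List Bool) : Tree := (S.f α.length).p α

/-- patterns -/
def NN (α : List Bool) : Finset Tree := (S.f α.length).N α

/-- averages -/
def gg (α : List Bool) : D Tree := (S.f (α.length + 1)).g α

lemma nd (α : List Bool) : Nd Φ α.length (S.kk α.length) (S.II α) (S.RR α) (S.pp α) (S.NN α) :=
  (S.inv α.length).nd α rfl

lemma kk_strict : StrictMono S.kk := strictMono_nat_of_lt_succ fun n => (S.rl n).k_lt

lemma II_dropLast {β : List Bool} (h : β ≠ []) : S.II β ⊆ S.II β.dropLast := by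
  obtain ⟨n, hn⟩ : ∃ n, β.length = n + 1 := by
    cases β with
    | nil => exact absurd rfl h
    | cons a l => exact ⟨l.length, rfl⟩
  have h2 : β.dropLast.length = n := by rw [List.length_dropLast, hn]; rfl
  unfold II
  rw [h2, hn]
  exact (S.rl n).sub β hn

lemma RR_dropLast {β : List Bool} (h : β ≠ []) {c : Br} (hc : c ∈ S.II β) {d : Br}
    (hd : d ∈ Φ.F β.dropLast.length c) (hdR : d ∉ S.RR β.dropLast) : d ∉ S.RR β := by
  obtain ⟨n, hn⟩ : ∃ n, β.length = n + 1 := by
    cases β with
    | nil => exact absurd rfl h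
    | cons a l => exact ⟨l.length, rfl⟩
  have h2 : β.dropLast.length = n := by rw [List.length_dropLast, hn]; rfl
  unfold RR at hdR ⊢
  unfold II at hc
  rw [h2] at hdR hd
  rw [hn] at hc ⊢
  exact (S.rl n).nr β hn c hc d hd hdR

lemma F_mono' (Φ : Fam) {m n : ℕ} (h : m ≤ n) (c : Br) : Φ.F m c ⊆ Φ.F n c :=
  monotone_nat_of_le_succ (f := fun n => Φ.F n c) (fun n => Φ.F_mono n c) h

lemma desc {β : List Bool} {l : ℕ} (hl : l ≤ β.length) {c : Br} (hc : c ∈ S.II β) :
    c ∈ S.II (β.take l) ∧ ∀ j, l ≤ j → j ≤ β.length → ∀ d ∈ Φ.F l c, d ∉ S.RR (β.take l) →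
      d ∉ S.RR (β.take j) := by
  induction β using List.reverseRecOn generalizing l with
  | nil =>
    have : l = 0 := by simpa using hl
    subst this
    refine ⟨by simpa using hc, ?_⟩
    intro j _ hj d _ hd
    have : j = 0 := by simpa using hj
    subst this
    exact hd
  | append_singleton β b ih =>
    have hne : β ++ [b] ≠ [] := by simp
    have hlen : (β ++ [b]).length = β.length + 1 := by simp
    have hdl : (β ++ [b]).dropLast = β := by simp
    rcases Nat.lt_or_ge β.length l with h | h
    · have hl' : l = (β ++ [b]).length := by omega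
      rw [hl', List.take_length]
      refine ⟨hc, ?_⟩
      intro j hj1 hj2 d _ hd
      have : j = (β ++ [b]).length := by omega
      rw [this, List.take_length]
      exact hd
    · have hc' : c ∈ S.II β := by
        have := S.II_dropLast hne hc
        rwa [hdl] at this
      obtain ⟨h1, h2⟩ := ih h hc'
      rw [List.take_append_of_le_length h]
      refine ⟨h1, ?_⟩
      intro j hj1 hj2 d hd hdR
      rcases Nat.lt_or_ge β.length j with h' | h'
      · have hj' : j = (β ++ [b]).length := by omega
        rw [hj', List.take_length]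
        apply S.RR_dropLast hne hc
        · rw [hdl]
          exact F_mono' Φ h c hd
        · rw [hdl]
          have := h2 β.length h le_rfl d hd hdR
          rwa [List.take_length] at this
      · rw [List.take_append_of_le_length h']
        exact h2 j hj1 h' d hd hdR

lemma g_stable (α : List Bool) {m : ℕ} (hm : α.length < m) : (S.f m).g α = S.gg α := by
  induction m with
  | zero => omega
  | succ m ih =>
    rcases Nat.lt_or_ge α.length m with h | h
    · rw [(S.rl m).g_old α h, ih h]
    · have : m = α.length := by omega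
      rw [this]
      rfl

lemma avg (α : List Bool) :
    ∃ C, Avg Φ α.length (S.kk (α.length + 1)) (S.II α) (S.RR α) (S.gg α) C :=
  (S.rl α.length).avg α rfl

lemma small {α β : List Bool} (h : α.length < β.length) : |S.gg α (ev (S.pp β))| ≤ Φ.ε β.length := by
  obtain ⟨n, hn⟩ : ∃ n, β.length = n + 1 := ⟨β.length - 1, by omega⟩
  have h1 := (S.rl n).small α β (by omega) hn
  rw [S.g_stable α (by omega)] at h1
  unfold pp
  rw [hn]
  exact h1

/-- the chosen finite sets -/
noncomputable def CC (α : List Bool) : Finset Br := (S.avg α).choose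

lemma hCC (α : List Bool) :
    Avg Φ α.length (S.kk (α.length + 1)) (S.II α) (S.RR α) (S.gg α) (S.CC α) := (S.avg α).choose_spec

/-- the average over the chosen set -/
noncomputable def av (α : List Bool) (z : Br → D Tree) : D Tree :=
  ((S.CC α).card : ℝ)⁻¹ • ∑ c ∈ S.CC α, z c

lemma gg_eq (α : List Bool) : S.gg α = S.av α Φ.y := (S.hCC α).eq

lemma card_pos (α : List Bool) : (0:ℝ) < (S.CC α).card := by
  exact_mod_cast Finset.card_pos.2 (S.hCC α).ne

lemma av_add (α : List Bool) (z w : Br → D Tree) :
    S.av α (fun c => z c + w c) = S.av α z + S.av α w := by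
  unfold av
  rw [Finset.sum_add_distrib, smul_add]

lemma av_sub (α : List Bool) (z w : Br → D Tree) :
    S.av α (fun c => z c - w c) = S.av α z - S.av α w := by
  unfold av
  rw [Finset.sum_sub_distrib, smul_sub]

lemma av_const (α : List Bool) (w : D Tree) : S.av α (fun _ => w) = w := by
  unfold av
  rw [Finset.sum_const, ← Nat.cast_smul_eq_nsmul ℝ, smul_smul, inv_mul_cancel₀ (S.card_pos α).ne',
    one_smul]

lemma av_norm {α : List Bool} {z : Br → D Tree} {r : ℝ} (h : ∀ c ∈ S.CC α, ‖z c‖ ≤ r) :
    ‖S.av α z‖ ≤ r := by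
  unfold av
  have h1 : ‖∑ c ∈ S.CC α, z c‖ ≤ (S.CC α).card * r := by
    refine (norm_sum_le _ _).trans ?_
    have := Finset.sum_le_sum h
    rwa [Finset.sum_const, nsmul_eq_mul] at this
  rw [norm_smul, norm_inv, Real.norm_eq_abs, abs_of_pos (S.card_pos α), inv_mul_le_iff₀ (S.card_pos α)]
  exact h1

lemma av_apply (α : List Bool) (z : Br → D Tree) (x : Pre Tree) :
    S.av α z x = ((S.CC α).card : ℝ)⁻¹ * ∑ c ∈ S.CC α, z c x := by
  unfold av
  rw [_root_.smul_apply, _root_.sum_apply, smul_eq_mul]

lemma av_zero_of {α : List Bool} {z : Br → D Tree} {x : Pre Tree} (h : ∀ c ∈ S.CC α, z c x = 0) :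
    S.av α z x = 0 := by
  rw [av_apply, Finset.sum_eq_zero h, mul_zero]

end Sch

end Pool.Agent.D0H29.JT
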