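import Pool.Agent.D0H29.JT.Est

/-!
# Estimates for the tree of averages, II (helper file for MP_245e03_an, Q2)
-/

set_option autoImplicit false

open Set Filter Topology
open Pool.Agent.R277.JT

namespace Pool.Agent.D0H29.JT

namespace Sch

variable {Φ : Fam} (S : Sch Φ)

open Classical in
/-- the non-root part at the precision of the node `α` -/
noncomputable def Z (α : List Bool) (k : ℕ) (c : Br) : D Tree :=
  ∑ d ∈ Φ.F α.length c \ S.RR α, Lm (br d) (Φ.y c) • sg (br d) k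

lemma M_nonneg (Φ : Fam) : 0 ≤ Φ.M := by
  obtain ⟨c, hc⟩ := nonempty_of_unc Φ.unc
  exact (norm_nonneg _).trans (Φ.norm_le c hc)

lemma take_sub {e : List Bool} {m : ℕ} (hm : m ≤ e.length) : S.II e ⊆ S.II (e.take m) :=
  fun _ hc => (S.desc hm hc).1

lemma norm_Z_le {α : List Bool} {c : Br} (hc : c ∈ S.II α) {k : ℕ} (hk : S.kk α.length ≤ k) :
    ‖S.Z α k c‖ ≤ Φ.M := by
  classical
  have hnd := S.nd α
  have hsep : Sep (Φ.F α.length c \ S.RR α) k :=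
    (Φ.sep α.length c k ((hnd.lev c hc).trans hk)).subset Finset.sdiff_subset
  have h1 := norm_sum_sg_le hsep (fun d => Lm (br d) (Φ.y c))
  refine h1.trans ?_
  rw [Real.sqrt_le_iff]
  refine ⟨M_nonneg Φ, (sum_Lm_sq _ _).trans ?_⟩
  exact pow_le_pow_left₀ (norm_nonneg _) (Φ.norm_le c (hnd.sub hc)) 2

/-- the common part of the members of the family -/
lemma exists_W (α : List Bool) : ∃ W : D Tree, ∀ c ∈ S.II α,
    ‖Φ.y c - W - S.Z α (S.kk α.length) c‖ ≤ 3 * Φ.ε α.length := by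
  classical
  have hnd := S.nd α
  set k := S.kk α.length with hk
  obtain ⟨c0, hc0⟩ := nonempty_of_unc hnd.unc
  refine ⟨cut (Φ.y c0) (lo Tree k) + ∑ d ∈ S.RR α, Lm (br d) (Φ.y c0) • sg (br d) k, fun c hc => ?_⟩
  have h1 : ∑ d ∈ Φ.F α.length c, Lm (br d) (Φ.y c) • sg (br d) k =
      S.Z α k c + ∑ d ∈ S.RR α, Lm (br d) (Φ.y c) • sg (br d) k :=
    (Finset.sum_sdiff (hnd.root c hc)).symm
  have h2 : ∑ d ∈ S.RR α, (Lm (br d) (Φ.y c) - Lm (br d) (Φ.y c0)) • sg (br d) k =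
      ∑ d ∈ S.RR α, Lm (br d) (Φ.y c) • sg (br d) k -
      ∑ d ∈ S.RR α, Lm (br d) (Φ.y c0) • sg (br d) k := by
    rw [← Finset.sum_sub_distrib]
    apply Finset.sum_congr rfl
    intro d _
    exact sub_smul (Lm (br d) (Φ.y c)) (Lm (br d) (Φ.y c0)) (sg (br d) k)
  have h3 : Φ.y c - (cut (Φ.y c0) (lo Tree k) + ∑ d ∈ S.RR α, Lm (br d) (Φ.y c0) • sg (br d) k) -
      S.Z α k c = cut (Φ.y c - Φ.y c0) (lo Tree k) +
      (cut (Φ.y c) (lv Tree k) - ∑ d ∈ Φ.F α.length c, Lm (br d) (Φ.y c) • sg (br d) k) +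
      ∑ d ∈ S.RR α, (Lm (br d) (Φ.y c) - Lm (br d) (Φ.y c0)) • sg (br d) k := by
    rw [h2, h1, cut_sub]
    nth_rewrite 1 [← cut_lo_add (Φ.y c) k]
    abel
  rw [h3]
  have n1 : ‖cut (Φ.y c - Φ.y c0) (lo Tree k)‖ ≤ Φ.ε α.length :=
    (norm_cut_mono (A := lo Tree (k + 1)) (B := lo Tree k) _ (fun i (hi : lev i < k) => (by
      change lev i < k + 1
      omega))).trans (hnd.close c hc c0 hc0)
  have n2 := Φ.app α.length c k (hnd.lev c hc)
  have n3 := hnd.closeR c hc c0 hc0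
  have n4 := norm_add₃_le (a := cut (Φ.y c - Φ.y c0) (lo Tree k))
    (b := cut (Φ.y c) (lv Tree k) - ∑ d ∈ Φ.F α.length c, Lm (br d) (Φ.y c) • sg (br d) k)
    (c := ∑ d ∈ S.RR α, (Lm (br d) (Φ.y c) - Lm (br d) (Φ.y c0)) • sg (br d) k)
  linarith

/-- the tails of the averages are small -/
lemma norm_av_Z_le {α e : List Bool} {m : ℕ} (hm : m ≤ e.length) (hα : α = e.take m) :
    ‖S.av e (S.Z α (S.kk (e.length + 1)))‖ ≤ Φ.ε e.length := by
  classical
  have hlen : α.length = m := by rw [hα, List.length_take]; omega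
  have hC := S.hCC e
  set C := S.CC e with hCdef
  set k := S.kk (e.length + 1) with hk
  have hcI : ∀ c ∈ C, c ∈ S.II e := hC.sub
  have hnr : ∀ c ∈ C, ∀ d ∈ Φ.F α.length c \ S.RR α, d ∈ Φ.F e.length c ∧ d ∉ S.RR e := by
    intro c hc d hd
    rw [Finset.mem_sdiff] at hd
    refine ⟨F_mono' Φ (by omega) c hd.1, ?_⟩
    have h1 := (S.desc hm (hcI c hc)).2 e.length hm le_rfl d
    rw [List.take_length] at h1
    apply h1
    · rw [← hlen]; exact hd.1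
    · rw [← hα]; exact hd.2
  have h1 : ∑ c ∈ C, S.Z α k c =
      ∑ i ∈ C.sigma (fun c => Φ.F α.length c \ S.RR α), Lm (br i.2) (Φ.y i.1) • sg (br i.2) k := by
    rw [Finset.sum_sigma]
    rfl
  have h2 : ‖∑ c ∈ C, S.Z α k c‖ ≤
      √(∑ i ∈ C.sigma (fun c => Φ.F α.length c \ S.RR α), (Lm (br i.2) (Φ.y i.1)) ^ 2) := by
    rw [h1]
    apply norm_sum_tails_le (C.sigma (fun c => Φ.F α.length c \ S.RR α))
      (fun i : (Σ _ : Br, Br) => br i.2) (fun _ => k)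
    rintro ⟨c, d⟩ hi ⟨c', d'⟩ hj hne n hn _
    rw [Finset.mem_sigma] at hi hj
    simp only at hi hj hn ⊢
    obtain ⟨g1, g2⟩ := hnr c hi.1 d hi.2
    obtain ⟨g3, g4⟩ := hnr c' hj.1 d' hj.2
    by_cases hdd : d = d'
    · subst hdd
      have hcc : c ≠ c' := fun h => hne (by rw [h])
      exact absurd (hC.dis c hi.1 c' hj.1 hcc d g1 g3) g2
    · exact br_ne_of (hC.sep c hi.1 c' hj.1 d g1 d' g3 hdd) hn
  have h3 : ∑ i ∈ C.sigma (fun c => Φ.F α.length c \ S.RR α), (Lm (br i.2) (Φ.y i.1)) ^ 2 ≤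
      C.card * Φ.M ^ 2 := by
    rw [Finset.sum_sigma]
    have : ∀ c ∈ C, ∑ d ∈ Φ.F α.length c \ S.RR α, (Lm (br d) (Φ.y c)) ^ 2 ≤ Φ.M ^ 2 := by
      intro c hc
      refine (sum_Lm_sq _ _).trans ?_
      exact pow_le_pow_left₀ (norm_nonneg _) (Φ.norm_le c ((S.nd e).sub (hcI c hc))) 2
    have h4 := Finset.sum_le_sum this
    rwa [Finset.sum_const, nsmul_eq_mul] at h4
  have hcp : (0:ℝ) < C.card := S.card_pos e
  have h4 : ‖∑ c ∈ C, S.Z α k c‖ ≤ √(C.card : ℝ) * Φ.M := by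
    refine h2.trans ((Real.sqrt_le_sqrt h3).trans ?_)
    rw [Real.sqrt_mul hcp.le, Real.sqrt_sq (M_nonneg Φ)]
  change ‖((C.card : ℝ))⁻¹ • ∑ c ∈ C, S.Z α k c‖ ≤ _
  rw [norm_smul, norm_inv, Real.norm_eq_abs, abs_of_pos hcp, inv_mul_le_iff₀ hcp]
  refine h4.trans ?_
  have h5 := hC.big
  have h6 : √(C.card : ℝ) * √(C.card : ℝ) = C.card := Real.mul_self_sqrt hcp.le
  have h7 := Real.sqrt_nonneg (C.card : ℝ)
  calc √(C.card : ℝ) * Φ.M ≤ √(C.card : ℝ) * (Φ.ε e.length * √(C.card : ℝ)) :=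
        mul_le_mul_of_nonneg_left h5 h7
    _ = (√(C.card : ℝ) * √(C.card : ℝ)) * Φ.ε e.length := by ring
    _ = _ := by rw [h6]

/-- evaluation of the non-root part at unit vectors -/
lemma Z_ev {α : List Bool} {k : ℕ} {c : Br} {i : Tree}
    (h : ∀ d ∈ Φ.F α.length c, d ∉ S.RR α → i ∉ tail (br d) k) : S.Z α k c (ev i) = 0 := by
  classical
  unfold Z
  rw [_root_.sum_apply]
  apply Finset.sum_eq_zero
  intro d hd
  rw [Finset.mem_sdiff] at hd
  rw [_root_.smul_apply, sg_ev, if_neg (h d hd.1 hd.2), smul_zero]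

lemma Z_sub_ev {α : List Bool} {k l : ℕ} (hkl : k ≤ l) {c : Br} {i : Tree}
    (h : ∀ d ∈ Φ.F α.length c, d ∉ S.RR α → br d (lev i) = i → k ≤ lev i → lev i < l → False) :
    (S.Z α k c - S.Z α l c) (ev i) = 0 := by
  classical
  unfold Z
  rw [_root_.sub_apply, _root_.sum_apply, _root_.sum_apply, ← Finset.sum_sub_distrib]
  apply Finset.sum_eq_zero
  intro d hd
  rw [Finset.mem_sdiff] at hd
  rw [_root_.smul_apply, _root_.smul_apply, sg_ev, sg_ev]
  have hiff : i ∈ tail (br d) k ↔ i ∈ tail (br d) l := by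
    constructor
    · intro h1
      refine ⟨?_, h1.2⟩
      by_contra hc
      exact h d hd.1 hd.2 h1.2 h1.1 (not_le.1 hc)
    · intro h1
      exact ⟨hkl.trans h1.1, h1.2⟩
  by_cases h1 : i ∈ tail (br d) k
  · rw [if_pos h1, if_pos (hiff.1 h1), sub_self]
  · rw [if_neg h1, if_neg (fun h2 => h1 (hiff.2 h2)), sub_self]

/-- the difference is a cut -/
lemma Z_sub_eq {α : List Bool} {k l : ℕ} (hkl : k ≤ l) (c : Br) :
    S.Z α k c - S.Z α l c = cut (S.Z α k c) (lo Tree l) := by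
  classical
  have h1 := cut_lo_add (S.Z α k c) l
  have h2 : cut (S.Z α k c) (lv Tree l) = S.Z α l c := by
    unfold Z
    exact cut_sum_sg _ _ hkl
  rw [h2] at h1
  exact sub_eq_of_eq_add h1.symm

end Sch

end Pool.Agent.D0H29.JT
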