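import Pool.Agent.D0H29.JT.Est2

/-!
# Estimates for the tree of averages, III (helper file for MP_245e03_an, Q2)
-/

set_option autoImplicit false

open Set Filter Topology
open Pool.Agent.R277.JT

namespace Pool.Agent.D0H29.JT

namespace Sch

variable {Φ : Fam} (S : Sch Φ)

/-- the zone of a node -/
def Λ (α : List Bool) : Set Tree :=
  {i | S.kk α.length ≤ lev i ∧ lev i < S.kk (α.length + 1) ∧ ∃ q ∈ S.NN α, q ≤ i}

/-- the zone of a segment -/
def Ω (m : ℕ) (e : List Bool) : Set Tree :=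
  {i | S.kk (m + 1) ≤ lev i ∧ lev i < S.kk (e.length + 1) ∧
    ∀ l, m + 1 ≤ l → l ≤ e.length → S.kk l ≤ lev i → ∃ q ∈ S.NN (e.take l), q ≤ i}

instance (α : List Bool) : (S.Λ α).OrdConnected := by
  refine ⟨fun a ha b hb i hi => ⟨ha.1.trans (lev_mono hi.1), (lev_mono hi.2).trans_lt hb.2.1, ?_⟩⟩
  obtain ⟨q, hq, hqa⟩ := ha.2.2
  exact ⟨q, hq, hqa.trans hi.1⟩

lemma lev_NN {e : List Bool} {l : ℕ} (hl : l ≤ e.length) {q : Tree} (hq : q ∈ S.NN (e.take l)) :
    lev q = S.kk l := by
  have h1 := (S.nd (e.take l)).levN q hq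
  have h2 : (e.take l).length = l := by rw [List.length_take]; omega
  rw [h2] at h1
  exact h1

instance (m : ℕ) (e : List Bool) : (S.Ω m e).OrdConnected := by
  refine ⟨fun a ha b hb i hi => ⟨ha.1.trans (lev_mono hi.1), (lev_mono hi.2).trans_lt hb.2.1, ?_⟩⟩
  intro l hl1 hl2 hl3
  obtain ⟨q, hq, hqb⟩ := hb.2.2 l hl1 hl2 (hl3.trans (lev_mono hi.2))
  refine ⟨q, hq, ?_⟩
  have h1 := S.lev_NN hl2 hq
  rcases Forest.comp q i b hqb hi.2 with h | h
  · exact h
  · exact (eq_of_lev h (by rw [h1]; exact hl3)).symm.le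

/-- first part of the difference -/
noncomputable def AA (α e : List Bool) : D Tree :=
  S.av e (fun c => S.Z α (S.kk α.length) c - S.Z α (S.kk (α.length + 1)) c) -
  S.av α (fun c => S.Z α (S.kk α.length) c - S.Z α (S.kk (α.length + 1)) c)

/-- second part of the difference -/
noncomputable def BB (α e : List Bool) : D Tree :=
  S.av e (fun c => S.Z α (S.kk (α.length + 1)) c - S.Z α (S.kk (e.length + 1)) c)

lemma cut_eq_self {f : D Tree} {A : Set Tree} [A.OrdConnected] (h : ∀ i, i ∉ A → f (ev i) = 0) :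
    cut f A = f := by
  apply D_ext
  intro i
  by_cases hi : i ∈ A
  · exact cut_ev f hi
  · rw [cut_ev_not f hi, h i hi]

variable {m : ℕ} {α e : List Bool}

lemma zone1 {c : Br} (hc : c ∈ S.II α) {i : Tree} (hi : i ∉ S.Λ α) :
    (S.Z α (S.kk α.length) c - S.Z α (S.kk (α.length + 1)) c) (ev i) = 0 := by
  apply S.Z_sub_ev (S.kk_strict.monotone (Nat.le_succ _))
  intro d hd hdR h1 h2 h3
  apply hi
  refine ⟨h2, h3, br d (S.kk α.length), (S.nd α).pat c hc d hd hdR, ?_⟩
  have h4 : br d (S.kk α.length) ≤ br d (lev i) := IsBr.mono h2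
  rwa [h1] at h4

lemma AA_cut (hm : m ≤ e.length) (hα : α = e.take m) : cut (S.AA α e) (S.Λ α) = S.AA α e := by
  apply cut_eq_self
  intro i hi
  unfold AA
  rw [_root_.sub_apply, S.av_zero_of, S.av_zero_of, sub_zero]
  · intro c hc
    exact S.zone1 ((S.hCC α).sub c hc) hi
  · intro c hc
    apply S.zone1 _ hi
    rw [hα]
    exact S.take_sub hm ((S.hCC e).sub c hc)

lemma BB_cut (hm : m < e.length) (hα : α = e.take m) : cut (S.BB α e) (S.Ω m e) = S.BB α e := by
  have hlen : α.length = m := by rw [hα, List.length_take]; omega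
  apply cut_eq_self
  intro i hi
  unfold BB
  rw [S.av_zero_of]
  intro c hc
  have hcI : c ∈ S.II e := (S.hCC e).sub c hc
  apply S.Z_sub_ev (S.kk_strict.monotone (by omega))
  intro d hd hdR h1 h2 h3
  apply hi
  rw [hlen] at h2
  refine ⟨h2, h3, ?_⟩
  intro l hl1 hl2 hl3
  have hll : (e.take l).length = l := by rw [List.length_take]; omega
  have h4 : br d (S.kk l) ≤ br d (lev i) := IsBr.mono hl3
  rw [h1] at h4
  refine ⟨br d (S.kk l), ?_, h4⟩
  have hnd := S.nd (e.take l)
  have h5 := hnd.pat c (S.take_sub hl2 hcI) d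
  rw [hll] at h5
  apply h5
  · exact F_mono' Φ (by omega) c hd
  · have h6 := (S.desc hm.le hcI).2 l (by omega) hl2 d
    apply h6
    · rw [← hlen]; exact hd
    · rw [← hα]; exact hdR

lemma norm_AA_le (hm : m ≤ e.length) (hα : α = e.take m) : ‖S.AA α e‖ ≤ 2 * Φ.M := by
  have h1 : ∀ c ∈ S.II α, ‖S.Z α (S.kk α.length) c - S.Z α (S.kk (α.length + 1)) c‖ ≤ Φ.M := by
    intro c hc
    rw [S.Z_sub_eq (S.kk_strict.monotone (Nat.le_succ _))]
    exact (norm_cut_le _ _).trans (S.norm_Z_le hc le_rfl)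
  unfold AA
  refine (norm_sub_le _ _).trans ?_
  have h2 : ‖S.av e (fun c => S.Z α (S.kk α.length) c - S.Z α (S.kk (α.length + 1)) c)‖ ≤ Φ.M := by
    apply S.av_norm
    intro c hc
    apply h1
    rw [hα]
    exact S.take_sub hm ((S.hCC e).sub c hc)
  have h3 : ‖S.av α (fun c => S.Z α (S.kk α.length) c - S.Z α (S.kk (α.length + 1)) c)‖ ≤ Φ.M := by
    apply S.av_norm
    intro c hc
    exact h1 c ((S.hCC α).sub c hc)
  linarith

lemma norm_BB_le (hm : m < e.length) (hα : α = e.take m) : ‖S.BB α e‖ ≤ Φ.M := by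
  have hlen : α.length = m := by rw [hα, List.length_take]; omega
  unfold BB
  apply S.av_norm
  intro c hc
  rw [S.Z_sub_eq (S.kk_strict.monotone (by omega))]
  refine (norm_cut_le _ _).trans (S.norm_Z_le ?_ (S.kk_strict.monotone (Nat.le_succ _)))
  rw [hα]
  exact S.take_sub hm.le ((S.hCC e).sub c hc)

/-- the differences of the averages are essentially supported on the zones -/
lemma diff_est (hε : Antitone Φ.ε) (hm : m < e.length) (hα : α = e.take m) :
    ‖S.gg e - S.gg α - S.AA α e - S.BB α e‖ ≤ 8 * Φ.ε m := by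
  have hlen : α.length = m := by rw [hα, List.length_take]; omega
  obtain ⟨W, hW⟩ := S.exists_W α
  have h1 : ∀ c ∈ S.CC e, ‖Φ.y c - W - S.Z α (S.kk α.length) c‖ ≤ 3 * Φ.ε m := by
    intro c hc
    rw [← hlen]
    apply hW
    rw [hα]
    exact S.take_sub hm.le ((S.hCC e).sub c hc)
  have h2 : ∀ c ∈ S.CC α, ‖Φ.y c - W - S.Z α (S.kk α.length) c‖ ≤ 3 * Φ.ε m := by
    intro c hc
    rw [← hlen]
    exact hW c ((S.hCC α).sub c hc)
  have n1 := S.av_norm h1
  have n2 := S.av_norm h2
  have n3 := S.norm_av_Z_le hm.le hα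
  have n4 : ‖S.av α (S.Z α (S.kk (α.length + 1)))‖ ≤ Φ.ε m := by
    have h3 := S.norm_av_Z_le (e := α) (α := α) (m := α.length) le_rfl (by rw [List.take_length])
    rwa [hlen] at h3 ⊢
  have n5 : Φ.ε e.length ≤ Φ.ε m := hε hm.le
  have e1 : S.av e (fun c => Φ.y c - W - S.Z α (S.kk α.length) c) =
      S.gg e - W - S.av e (S.Z α (S.kk α.length)) := by
    rw [S.av_sub, S.av_sub, S.av_const, S.gg_eq]
  have e2 : S.av α (fun c => Φ.y c - W - S.Z α (S.kk α.length) c) =
      S.gg α - W - S.av α (S.Z α (S.kk α.length)) := by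
    rw [S.av_sub, S.av_sub, S.av_const, S.gg_eq]
  have e3 : S.gg e - S.gg α - S.AA α e - S.BB α e =
      S.av e (fun c => Φ.y c - W - S.Z α (S.kk α.length) c) -
      S.av α (fun c => Φ.y c - W - S.Z α (S.kk α.length) c) +
      S.av e (S.Z α (S.kk (e.length + 1))) - S.av α (S.Z α (S.kk (α.length + 1))) := by
    rw [e1, e2]
    unfold AA BB
    rw [S.av_sub, S.av_sub, S.av_sub]
    abel
  rw [e3]
  have n6 := norm_sub_le (S.av e (fun c => Φ.y c - W - S.Z α (S.kk α.length) c) -
      S.av α (fun c => Φ.y c - W - S.Z α (S.kk α.length) c) +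
      S.av e (S.Z α (S.kk (e.length + 1)))) (S.av α (S.Z α (S.kk (α.length + 1))))
  have n7 := norm_add_le (S.av e (fun c => Φ.y c - W - S.Z α (S.kk α.length) c) -
      S.av α (fun c => Φ.y c - W - S.Z α (S.kk α.length) c)) (S.av e (S.Z α (S.kk (e.length + 1))))
  have n8 := norm_sub_le (S.av e (fun c => Φ.y c - W - S.Z α (S.kk α.length) c))
    (S.av α (fun c => Φ.y c - W - S.Z α (S.kk α.length) c))
  linarith

lemma disj_Λ {α β : List Bool} (h : α ≠ β) : Disjoint (S.Λ α) (S.Λ β) := by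
  rw [Set.disjoint_left]
  rintro i ⟨h1, h2, q, hq, hqi⟩ ⟨h3, h4, q', hq', hqi'⟩
  have hlen : α.length = β.length := by
    by_contra hne
    rcases Nat.lt_or_gt_of_ne hne with h | h
    · have := S.kk_strict.monotone (show α.length + 1 ≤ β.length from h)
      omega
    · have := S.kk_strict.monotone (show β.length + 1 ≤ α.length from h)
      omega
  have l1 := (S.nd α).levN q hq
  have l2 := (S.nd β).levN q' hq'
  have hqq : q = q' := by
    rcases Forest.comp q q' i hqi hqi' with h | h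
    · exact eq_of_lev h (by rw [l1, l2, hlen])
    · exact (eq_of_lev h (by rw [l1, l2, hlen])).symm
  subst hqq
  have hd := (S.inv α.length).disj α β rfl hlen.symm h
  unfold NN at hq hq'
  rw [← hlen] at hq'
  exact (Finset.disjoint_left.1 hd) hq hq'

/-- zones of segments: a common point yields a common node -/
lemma common_Ω {m m' : ℕ} {e e' : List Bool} {i : Tree} (h : i ∈ S.Ω m e) (h' : i ∈ S.Ω m' e') :
    ∃ l, m + 1 ≤ l ∧ l ≤ e.length ∧ m' + 1 ≤ l ∧ l ≤ e'.length ∧ e.take l = e'.take l := by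
  classical
  obtain ⟨h1, h2, h3⟩ := h
  obtain ⟨h4, h5, h6⟩ := h'
  -- the band of `i`
  have hex : ∃ l, lev i < S.kk (l + 1) := ⟨e.length, h2⟩
  set l := Nat.find hex with hl
  have hl1 : lev i < S.kk (l + 1) := Nat.find_spec hex
  have hle : l ≤ e.length := Nat.find_min' hex h2
  have hle' : l ≤ e'.length := Nat.find_min' hex h5
  have hm1 : m + 1 ≤ l := by
    by_contra hc
    have := S.kk_strict.monotone (show l + 1 ≤ m + 1 by omega)
    omega
  have hm2 : m' + 1 ≤ l := by
    by_contra hc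
    have := S.kk_strict.monotone (show l + 1 ≤ m' + 1 by omega)
    omega
  have hll : S.kk l ≤ lev i := by
    by_contra hc
    push Not at hc
    have := Nat.find_min hex (m := l - 1) (by omega)
    apply this
    rwa [Nat.sub_add_cancel (by omega)]
  refine ⟨l, hm1, hle, hm2, hle', ?_⟩
  obtain ⟨q, hq, hqi⟩ := h3 l hm1 hle hll
  obtain ⟨q', hq', hqi'⟩ := h6 l hm2 hle' hll
  have l1 := S.lev_NN hle hq
  have l2 := S.lev_NN hle' hq'
  have hqq : q = q' := by
    rcases Forest.comp q q' i hqi hqi' with h | h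
    · exact eq_of_lev h (by rw [l1, l2])
    · exact (eq_of_lev h (by rw [l1, l2])).symm
  subst hqq
  by_contra hne
  have len1 : (e.take l).length = l := by rw [List.length_take]; omega
  have len2 : (e'.take l).length = l := by rw [List.length_take]; omega
  have hd := (S.inv l).disj (e.take l) (e'.take l) len1 len2 hne
  unfold NN at hq hq'
  rw [len1] at hq
  rw [len2] at hq'
  exact (Finset.disjoint_left.1 hd) hq hq'

end Sch

end Pool.Agent.D0H29.JT
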