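import Pool.Agent.D0H29.JT.Est3

/-!
# Estimates for the tree of averages, IV: the upper estimate (helper file for MP_245e03_an, Q2)
-/

set_option autoImplicit false

open Set Filter Topology
open Pool.Agent.R277.JT

namespace Pool.Agent.D0H29.JT

namespace Sch

variable {Φ : Fam} (S : Sch Φ)

/-- a node as a word -/
def L (t : Tree) : List Bool := t

/-- a word as a node -/
def U (l : List Bool) : Tree := l

lemma L_U (l : List Bool) : L (U l) = l := rfl

lemma U_L (t : Tree) : U (L t) = t := rfl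

lemma le_iff_L {a b : Tree} : a ≤ b ↔ L a <+: L b := Iff.rfl

lemma lev_L (t : Tree) : lev t = (L t).length := rfl

lemma L_inj {a b : Tree} (h : L a = L b) : a = b := h

lemma L_take {a b : Tree} (h : a ≤ b) : L a = (L b).take (lev a) :=
  List.prefix_iff_eq_take.1 (le_iff_L.1 h)

/-- the basis -/
noncomputable def v (t : Tree) : D Tree :=
  S.gg (false :: L t) - S.gg ((false :: L t).take (L t).length)

open Classical in
lemma seg_eq {T : Finset Tree} {a b : Tree} (hab : a ≤ b) (hm : ∀ t, t ∈ T ↔ a ≤ t ∧ t ≤ b) :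
    T = (Finset.Ico (lev a) (lev b + 1)).image (fun j => U ((L b).take j)) := by
  ext t
  rw [hm, Finset.mem_image]
  constructor
  · rintro ⟨h1, h2⟩
    refine ⟨lev t, ?_, ?_⟩
    · rw [Finset.mem_Ico]
      have g1 := lev_mono h1
      have g2 := lev_mono h2
      omega
    · rw [← L_take h2, U_L]
  · rintro ⟨j, hj, rfl⟩
    rw [Finset.mem_Ico] at hj
    constructor
    · rw [le_iff_L, L_U, L_take hab]
      exact List.take_prefix_take_left hj.1
    · rw [le_iff_L, L_U]
      exact List.take_prefix _ _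

lemma seg_sum {T : Finset Tree} {a b : Tree} (hab : a ≤ b) (hm : ∀ t, t ∈ T ↔ a ≤ t ∧ t ≤ b) :
    ∑ t ∈ T, S.v t = S.gg (false :: L b) - S.gg ((false :: L b).take (lev a)) := by
  classical
  have hla := lev_mono hab
  have hb := lev_L b
  rw [seg_eq hab hm, Finset.sum_image]
  · have h1 : ∀ j ∈ Finset.Ico (lev a) (lev b + 1), S.v (U ((L b).take j)) =
        S.gg ((false :: L b).take (j + 1)) - S.gg ((false :: L b).take j) := by
      intro j hj
      rw [Finset.mem_Ico] at hj
      unfold v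
      have h2 : ((L b).take j).length = j := by
        rw [List.length_take]
        omega
      have h3 : (false :: (L b).take j) = (false :: L b).take (j + 1) := by
        rw [List.take_succ_cons]
      rw [L_U, h2, h3, List.take_take, min_eq_left (Nat.le_succ j)]
    rw [Finset.sum_congr rfl h1, Finset.sum_Ico_eq_sub _ (by omega),
      Finset.sum_range_sub (fun j => S.gg ((false :: L b).take j)),
      Finset.sum_range_sub (fun j => S.gg ((false :: L b).take j))]
    have h4 : (false :: L b).take (lev b + 1) = false :: L b := by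
      rw [List.take_succ_cons, hb, List.take_length]
    rw [h4]
    abel
  · intro j hj k hk hjk
    rw [Finset.mem_coe, Finset.mem_Ico] at hj hk
    have h1 := congrArg (fun t => (L t).length) hjk
    simp only [L_U, List.length_take] at h1
    omega

lemma three_sq (p q r : ℝ) : (p + q + r) ^ 2 ≤ 3 * (p ^ 2 + q ^ 2 + r ^ 2) := by
  nlinarith [sq_nonneg (p - q), sq_nonneg (q - r), sq_nonneg (p - r)]

lemma apply_cut_le {f : D Tree} {A : Set Tree} [A.OrdConnected] (h : cut f A = f) {K : ℝ}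
    (hK : ‖f‖ ≤ K) (x : Pre Tree) : (f x) ^ 2 ≤ K ^ 2 * ‖res A x‖ ^ 2 := by
  have h1 : f x = f (res A x) := by
    conv_lhs => rw [← h]
    rfl
  rw [h1, ← mul_pow]
  apply sq_le_sq'
  · have h2 := f.le_opNorm (res A x)
    rw [Real.norm_eq_abs] at h2
    have h3 := (abs_le.1 h2).1
    have h4 := mul_le_mul_of_nonneg_right hK (norm_nonneg (res A x))
    linarith
  · have h2 := f.le_opNorm (res A x)
    rw [Real.norm_eq_abs] at h2
    have h3 := (abs_le.1 h2).2
    have h4 := mul_le_mul_of_nonneg_right hK (norm_nonneg (res A x))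
    linarith

theorem fam_est (hε : Antitone Φ.ε) (hε2 : ∀ A : Finset (List Bool), ∑ a ∈ A, (Φ.ε a.length) ^ 2 ≤ 1)
    {ι : Type*} (s : Finset ι) (T : ι → Finset Tree) (hT : ∀ i ∈ s, (T i).Nonempty → IsSeg (T i))
    (hd : ∀ i ∈ s, ∀ j ∈ s, i ≠ j → Disjoint (T i) (T j)) (x : Pre Tree) :
    ∑ i ∈ s, ((∑ t ∈ T i, S.v t) x) ^ 2 ≤ (27 * Φ.M ^ 2 + 192) * ‖x‖ ^ 2 := by
  classical
  let s' := s.filter (fun i => (T i).Nonempty)
  have h0 : ∑ i ∈ s, ((∑ t ∈ T i, S.v t) x) ^ 2 = ∑ i ∈ s', ((∑ t ∈ T i, S.v t) x) ^ 2 := by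
    symm
    apply Finset.sum_subset (Finset.filter_subset _ _)
    intro i hi hi'
    have : ¬ (T i).Nonempty := fun h => hi' (Finset.mem_filter.2 ⟨hi, h⟩)
    rw [Finset.not_nonempty_iff_eq_empty] at this
    rw [this, Finset.sum_empty, ContinuousLinearMap.zero_apply]
    norm_num
  rw [h0]
  have hseg : ∀ i, ∃ a b : Tree, i ∈ s' → a ≤ b ∧ ∀ t, t ∈ T i ↔ a ≤ t ∧ t ≤ b := by
    intro i
    by_cases hi : i ∈ s'
    · obtain ⟨h1, h2⟩ := Finset.mem_filter.1 hi
      obtain ⟨a, b, h3⟩ := hT i h1 h2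
      exact ⟨a, b, fun _ => h3⟩
    · exact ⟨U [], U [], fun h => absurd h hi⟩
  choose a b hab using hseg
  have hss : ∀ i ∈ s', i ∈ s := fun i hi => (Finset.mem_filter.1 hi).1
  let e : ι → List Bool := fun i => false :: (L (b i))
  let m : ι → ℕ := fun i => lev (a i)
  let α : ι → List Bool := fun i => (e i).take (m i)
  have hm : ∀ i ∈ s', m i < (e i).length := by
    intro i hi
    have h1 := lev_mono (hab i hi).1
    have h2 : (e i).length = lev (b i) + 1 := rfl
    have h3 : m i = lev (a i) := rfl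
    omega
  have hsum : ∀ i ∈ s', ∑ t ∈ T i, S.v t = S.gg (e i) - S.gg (α i) :=
    fun i hi => S.seg_sum (hab i hi).1 (hab i hi).2
  have hpref : ∀ i ∈ s', (e i).take (m i + 1) = false :: (L (a i)) := by
    intro i hi
    change (false :: L (b i)).take (m i + 1) = _
    rw [List.take_succ_cons, L_take (hab i hi).1]
  have hinj : ∀ i ∈ s', ∀ j ∈ s', a i = a j → i = j := by
    intro i hi j hj hij
    by_contra hne
    have h1 : a i ∈ T i := ((hab i hi).2 _).2 ⟨le_rfl, (hab i hi).1⟩
    have h2 : a i ∈ T j := by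
      rw [hij]
      exact ((hab j hj).2 _).2 ⟨le_rfl, (hab j hj).1⟩
    exact (Finset.disjoint_left.1 (hd i (hss i hi) j (hss j hj) hne)) h1 h2
  -- the three parts
  have key : ∀ i ∈ s', ((∑ t ∈ T i, S.v t) x) ^ 2 ≤ 3 * ((2 * Φ.M) ^ 2 * ‖res (S.Λ (α i)) x‖ ^ 2 +
      Φ.M ^ 2 * ‖res (S.Ω (m i) (e i)) x‖ ^ 2 + 64 * (Φ.ε (L (a i)).length) ^ 2 * ‖x‖ ^ 2) := by
    intro i hi
    rw [hsum i hi]
    have h1 : (S.gg (e i) - S.gg (α i)) x = S.AA (α i) (e i) x + S.BB (α i) (e i) x +
        (S.gg (e i) - S.gg (α i) - S.AA (α i) (e i) - S.BB (α i) (e i)) x := by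
      simp only [_root_.sub_apply]
      ring
    rw [h1]
    refine (three_sq _ _ _).trans ?_
    have p1 := apply_cut_le (S.AA_cut (hm i hi).le (rfl : α i = (e i).take (m i)))
      (S.norm_AA_le (hm i hi).le rfl) x
    have p2 := apply_cut_le (S.BB_cut (hm i hi) (rfl : α i = (e i).take (m i)))
      (S.norm_BB_le (hm i hi) rfl) x
    have p3 : ((S.gg (e i) - S.gg (α i) - S.AA (α i) (e i) - S.BB (α i) (e i)) x) ^ 2 ≤
        64 * (Φ.ε (L (a i)).length) ^ 2 * ‖x‖ ^ 2 := by
      have q1 := S.diff_est hε (hm i hi) (rfl : α i = (e i).take (m i))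
      have q2 := (S.gg (e i) - S.gg (α i) - S.AA (α i) (e i) - S.BB (α i) (e i)).le_opNorm x
      rw [Real.norm_eq_abs] at q2
      have q3 := q2.trans (mul_le_mul_of_nonneg_right q1 (norm_nonneg x))
      have q4 : m i = (L (a i)).length := rfl
      rw [q4] at q3
      calc _ = |(S.gg (e i) - S.gg (α i) - S.AA (α i) (e i) - S.BB (α i) (e i)) x| ^ 2 := (sq_abs _).symm
        _ ≤ (8 * Φ.ε (L (a i)).length * ‖x‖) ^ 2 := pow_le_pow_left₀ (abs_nonneg _) q3 2
        _ = _ := by ring
    linarith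
  refine (Finset.sum_le_sum key).trans ?_
  rw [← Finset.mul_sum, Finset.sum_add_distrib, Finset.sum_add_distrib, ← Finset.mul_sum,
    ← Finset.mul_sum]
  -- first sum
  have S1 : ∑ i ∈ s', ‖res (S.Λ (α i)) x‖ ^ 2 ≤ 2 * ‖x‖ ^ 2 := by
    have hmaps : ∀ i ∈ s', (false :: (L (a i))).drop (m i) ∈
        ({[true], [false]} : Finset (List Bool)) := by
      intro i _
      have hl : ((false :: (L (a i))).drop (m i)).length = 1 := by
        rw [List.length_drop]
        change (L (a i)).length + 1 - (L (a i)).length = 1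
        omega
      obtain ⟨c, hc⟩ := List.length_eq_one_iff.1 hl
      rw [hc]
      cases c <;> simp
    rw [← Finset.sum_fiberwise_of_maps_to hmaps]
    have hfib : ∀ w ∈ ({[true], [false]} : Finset (List Bool)),
        ∑ i ∈ s'.filter (fun i => (false :: (L (a i))).drop (m i) = w),
          ‖res (S.Λ (α i)) x‖ ^ 2 ≤ ‖x‖ ^ 2 := by
      intro w _
      apply sum_sq_res _ (fun i => S.Λ (α i)) (fun i _ => inferInstance)
      intro i hi j hj hne
      rw [Finset.mem_filter] at hi hj
      apply S.disj_Λ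
      intro hα
      apply hne
      apply hinj i hi.1 j hj.1
      have hlen : m i = m j := by
        have h1 := congrArg List.length hα
        rw [List.length_take, List.length_take] at h1
        have h2 := hm i hi.1
        have h3 := hm j hj.1
        omega
      have e1 : ∀ i ∈ s', false :: (L (a i)) = α i ++
          (false :: (L (a i))).drop (m i) := by
        intro i hi
        have h1 : α i = (false :: (L (a i))).take (m i) := by
          rw [← hpref i hi, List.take_take, min_eq_left (Nat.le_succ _)]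
        rw [h1, List.take_append_drop]
      have h1 := e1 i hi.1
      have h2 := e1 j hj.1
      rw [hi.2, hα] at h1
      rw [hj.2] at h2
      have h3 := h1.trans h2.symm
      exact L_inj (List.tail_eq_of_cons_eq h3)
    refine (Finset.sum_le_sum hfib).trans ?_
    rw [Finset.sum_const, nsmul_eq_mul]
    have : ((({[true], [false]} : Finset (List Bool)).card : ℕ) : ℝ) ≤ 2 := by
      exact_mod_cast Finset.card_le_two
    exact mul_le_mul_of_nonneg_right this (sq_nonneg _)
  have S2 : ∑ i ∈ s', ‖res (S.Ω (m i) (e i)) x‖ ^ 2 ≤ ‖x‖ ^ 2 := by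
    apply sum_sq_res _ (fun i => S.Ω (m i) (e i)) (fun i _ => inferInstance)
    intro i hi j hj hne
    rw [Set.disjoint_left]
    intro t ht1 ht2
    obtain ⟨l, g1, g2, g3, g4, g5⟩ := S.common_Ω ht1 ht2
    obtain ⟨l', rfl⟩ : ∃ l', l = l' + 1 := ⟨l - 1, by omega⟩
    -- the common node
    have g6 : (L (b i)).take l' = (L (b j)).take l' := by
      have : false :: (L (b i)).take l' = false :: (L (b j)).take l' := by
        rw [← List.take_succ_cons, ← List.take_succ_cons]
        exact g5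
      exact List.tail_eq_of_cons_eq this
    have node : ∀ i ∈ s', m i + 1 ≤ l' + 1 → l' + 1 ≤ (e i).length →
        U ((L (b i)).take l') ∈ T i := by
      intro i hi k1 k2
      rw [(hab i hi).2]
      constructor
      · rw [le_iff_L, L_U, L_take (hab i hi).1]
        exact List.take_prefix_take_left (by
          have : m i = lev (a i) := rfl
          omega)
      · rw [le_iff_L, L_U]
        exact List.take_prefix _ _
    have n1 := node i hi g1 g2
    have n2 := node j hj g3 g4
    rw [← g6] at n2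
    exact (Finset.disjoint_left.1 (hd i (hss i hi) j (hss j hj) hne)) n1 n2
  have S3 : ∑ i ∈ s', 64 * (Φ.ε (L (a i)).length) ^ 2 * ‖x‖ ^ 2 ≤ 64 * ‖x‖ ^ 2 := by
    have h1 : ∑ i ∈ s', (Φ.ε (L (a i)).length) ^ 2 ≤ 1 := by
      have h2 := Finset.sum_image (s := s') (g := fun i => (L (a i)))
        (f := fun t : List Bool => (Φ.ε t.length) ^ 2) (fun i hi j hj hij => hinj i hi j hj hij)
      exact h2.symm.le.trans (hε2 _)
    have h2 : ∑ i ∈ s', 64 * (Φ.ε (L (a i)).length) ^ 2 * ‖x‖ ^ 2 =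
        64 * (∑ i ∈ s', (Φ.ε (L (a i)).length) ^ 2) * ‖x‖ ^ 2 := by
      rw [Finset.mul_sum, Finset.sum_mul]
    rw [h2]
    have h3 : 0 ≤ ‖x‖ ^ 2 := sq_nonneg _
    nlinarith
  have h4 : (2 * Φ.M) ^ 2 * ∑ i ∈ s', ‖res (S.Λ (α i)) x‖ ^ 2 ≤ (2 * Φ.M) ^ 2 * (2 * ‖x‖ ^ 2) :=
    mul_le_mul_of_nonneg_left S1 (sq_nonneg _)
  have h5 : Φ.M ^ 2 * ∑ i ∈ s', ‖res (S.Ω (m i) (e i)) x‖ ^ 2 ≤ Φ.M ^ 2 * ‖x‖ ^ 2 :=
    mul_le_mul_of_nonneg_left S2 (sq_nonneg _)
  nlinarith

end Sch

end Pool.Agent.D0H29.JT
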