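import Pool.Agent.D0H29.JT.Est4

/-!
# Estimates for the tree of averages, V: operators (helper file for MP_245e03_an, Q2)
-/

set_option autoImplicit false

open Set Filter Topology
open Pool.Agent.R277.JT

namespace Pool.Agent.D0H29.JT

/-- the nodes of level less than `n` -/
noncomputable def bn (n : ℕ) : Finset Tree := (Lev.fin (I := Tree) n).toFinset

lemma mem_bn {n : ℕ} {t : Tree} : t ∈ bn n ↔ lev t < n := by
  unfold bn
  rw [Set.Finite.mem_toFinset]
  exact Iff.rfl

/-- finite sums of a family indexed by the tree -/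
noncomputable def TT (w : Tree → D Tree) (n : ℕ) (φ : D Tree) : D Tree :=
  ∑ t ∈ bn n, φ (ev t) • w t

lemma TT_add (w : Tree → D Tree) (n : ℕ) (φ ψ : D Tree) : TT w n (φ + ψ) = TT w n φ + TT w n ψ := by
  unfold TT
  rw [← Finset.sum_add_distrib]
  exact Finset.sum_congr rfl fun j _ => by rw [_root_.add_apply, add_smul]

lemma TT_smul (w : Tree → D Tree) (n : ℕ) (a : ℝ) (φ : D Tree) : TT w n (a • φ) = a • TT w n φ := by
  unfold TT
  rw [Finset.smul_sum]
  exact Finset.sum_congr rfl fun j _ => by rw [_root_.smul_apply, smul_smul, smul_eq_mul]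

/-- the upper estimate, for an abstract family -/
lemma norm_TT_le {w : Tree → D Tree} {C : ℝ} (hC : 0 ≤ C)
    (h : ∀ (P : Finset (Finset Tree)) (n : ℕ), IsFam P → ∀ x : Pre Tree,
      ∑ S ∈ P, ((∑ t ∈ S with lev t < n, w t) x) ^ 2 ≤ C ^ 2 * ‖x‖ ^ 2) (n : ℕ) (φ : D Tree) :
    ‖TT w n φ‖ ≤ C * ‖φ‖ := by
  classical
  apply ContinuousLinearMap.opNorm_le_bound _ (mul_nonneg hC (norm_nonneg _))
  intro x
  let V : Pre Tree := ∑ t ∈ bn n, w t x • ev t
  have hV : ‖V‖ ≤ C * ‖x‖ := by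
    apply norm_le_of (mul_nonneg hC (norm_nonneg _))
    intro P hP
    rw [mul_pow]
    refine le_trans (Finset.sum_le_sum fun S hS => ?_) (h P n hP x)
    apply le_of_eq
    congr 1
    change ss S (∑ t ∈ bn n, w t x • ev t) = _
    rw [ss_sum, _root_.sum_apply]
    simp_rw [ss_smul, ss_ev, mul_ite, mul_one, mul_zero]
    rw [← Finset.sum_filter]
    apply Finset.sum_congr _ fun _ _ => rfl
    ext t
    rw [Finset.mem_filter, Finset.mem_filter, mem_bn]
    exact ⟨fun h => ⟨h.2, h.1⟩, fun h => ⟨h.2, h.1⟩⟩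
  have h1 : TT w n φ x = φ V := by
    change (∑ t ∈ bn n, φ (ev t) • w t) x = φ (∑ t ∈ bn n, w t x • ev t)
    rw [_root_.sum_apply, map_sum]
    apply Finset.sum_congr rfl
    intro t _
    rw [_root_.smul_apply, map_smul, smul_eq_mul, smul_eq_mul, mul_comm]
  rw [h1]
  refine (φ.le_opNorm V).trans ?_
  calc ‖φ‖ * ‖V‖ ≤ ‖φ‖ * (C * ‖x‖) := mul_le_mul_of_nonneg_left hV (norm_nonneg _)
    _ = C * ‖φ‖ * ‖x‖ := by ring

/-- building the operator from the two estimates -/
theorem operator {E : Type*} [NormedAddCommGroup E] [NormedSpace ℝ E] (j : E →ₗᵢ[ℝ] D Tree)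
    (w : Tree → D Tree) {C c : ℝ} (hc : 0 < c)
    (hU : ∀ (n : ℕ) (φ : D Tree), ‖TT w n φ‖ ≤ C * ‖φ‖)
    (hLw : ∀ (n : ℕ) (φ : D Tree), c * ‖cut φ (lo Tree n)‖ ≤ ‖TT w n φ‖)
    (R : Submodule ℝ (D Tree)) (hR : IsClosed (R : Set (D Tree))) (hw : ∀ t, w t ∈ R)
    (hB : ∀ (φ : E) (d : Br), Lm (br d) (j φ) = 0) :
    ∃ T : E →L[ℝ] D Tree, (∀ f, T f ∈ R) ∧ ∀ f, c * ‖f‖ ≤ ‖T f‖ := by
  classical
  have hC : 0 ≤ |C| := abs_nonneg _
  have hU' : ∀ (n : ℕ) (φ : D Tree), ‖TT w n φ‖ ≤ |C| * ‖φ‖ := fun n φ =>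
    (hU n φ).trans (mul_le_mul_of_nonneg_right (le_abs_self _) (norm_nonneg _))
  have hdiff : ∀ (φ : D Tree) (m n : ℕ), m ≤ n → TT w n φ - TT w m φ = TT w n (cut φ (lv Tree m)) := by
    intro φ m n hmn
    unfold TT
    have hsub : bn m ⊆ bn n := by
      intro t ht
      rw [mem_bn] at ht ⊢
      omega
    rw [← Finset.sum_sdiff hsub, add_sub_cancel_right, ← Finset.sum_sdiff hsub]
    have h1 : ∑ t ∈ bn m, (cut φ (lv Tree m)) (ev t) • w t = 0 := by
      apply Finset.sum_eq_zero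
      intro t ht
      rw [mem_bn] at ht
      rw [cut_ev_not φ (fun hj' : m ≤ lev t => by omega), zero_smul]
    rw [h1, add_zero]
    apply Finset.sum_congr rfl
    intro t ht
    rw [Finset.mem_sdiff, mem_bn, mem_bn] at ht
    rw [cut_ev φ (A := lv Tree m) (show m ≤ lev t by omega)]
  have hs2 : ∀ φ : E, Tendsto (fun k => ‖cut (j φ) (lv Tree k)‖) atTop (𝓝 0) := fun φ =>
    step2 (hB φ)
  have hCau : ∀ φ : E, CauchySeq (fun n => TT w n (j φ)) := by
    intro φ
    apply cauchySeq_of_le_tendsto_0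
      (fun m => |C| * ‖cut (j φ) (lv Tree m)‖ + |C| * ‖cut (j φ) (lv Tree m)‖)
    · have key : ∀ N n, N ≤ n → ‖TT w n (j φ) - TT w N (j φ)‖ ≤ |C| * ‖cut (j φ) (lv Tree N)‖ := by
        intro N n hNn
        rw [hdiff (j φ) N n hNn]
        exact hU' n _
      intro m n N hm hn
      rw [dist_eq_norm]
      have h1 := key N m hm
      have h2 := key N n hn
      have h3 : TT w m (j φ) - TT w n (j φ) =
        (TT w m (j φ) - TT w N (j φ)) - (TT w n (j φ) - TT w N (j φ)) := by abel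
      rw [h3]
      exact (norm_sub_le _ _).trans (add_le_add h1 h2)
    · have h1 := (hs2 φ).const_mul |C|
      have h2 := h1.add h1
      simpa using h2
  have hlim : ∀ φ : E, Tendsto (fun n => TT w n (j φ)) atTop
      (𝓝 (limUnder atTop (fun n => TT w n (j φ)))) :=
    fun φ => tendsto_nhds_limUnder (cauchySeq_tendsto_of_complete (hCau φ))
  let TL : E →ₗ[ℝ] D Tree :=
    { toFun := fun f => limUnder atTop (fun n => TT w n (j f))
      map_add' := by
        intro f g
        have h1 := hlim (f + g)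
        have h2 := (hlim f).add (hlim g)
        refine tendsto_nhds_unique h1 (h2.congr fun n => ?_)
        rw [map_add, TT_add]
      map_smul' := by
        intro a f
        have h1 := hlim (a • f)
        have h2 := (hlim f).const_smul a
        refine tendsto_nhds_unique h1 (h2.congr fun n => ?_)
        rw [map_smul, TT_smul] }
  have hTL : ∀ f : E, Tendsto (fun n => TT w n (j f)) atTop (𝓝 (TL f)) :=
    fun f => hlim f
  have hTb : ∀ f : E, ‖TL f‖ ≤ |C| * ‖f‖ := by
    intro f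
    apply le_of_tendsto (hTL f).norm
    filter_upwards with n
    have := hU' n (j f)
    rwa [j.norm_map] at this
  let T : E →L[ℝ] D Tree := TL.mkContinuous |C| hTb
  have hT : ∀ f : E, Tendsto (fun n => TT w n (j f)) atTop (𝓝 (T f)) := hTL
  refine ⟨T, fun f => ?_, fun f => ?_⟩
  · refine hR.mem_of_tendsto (hT f) (Eventually.of_forall fun n => ?_)
    exact R.sum_mem fun t _ => R.smul_mem _ (hw t)
  · have h2 : Tendsto (fun n => c * (‖j f‖ - ‖cut (j f) (lv Tree n)‖)) atTop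
        (𝓝 (c * (‖j f‖ - 0))) :=
      ((hs2 f).const_sub _).const_mul _
    rw [sub_zero, j.norm_map] at h2
    refine le_of_tendsto_of_tendsto h2 (hT f).norm (Eventually.of_forall fun n => ?_)
    have h4 : ‖j f‖ ≤ ‖cut (j f) (lo Tree n)‖ + ‖cut (j f) (lv Tree n)‖ := by
      have := norm_add_le (cut (j f) (lo Tree n)) (cut (j f) (lv Tree n))
      rwa [cut_lo_add] at this
    rw [j.norm_map] at h4
    exact (mul_le_mul_of_nonneg_left (by linarith) hc.le).trans (hLw n (j f))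

end Pool.Agent.D0H29.JT
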