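import Pool.Agent.D0H29.JT.Est5

/-!
# Estimates for the tree of averages, VI: the lower estimate (helper file for MP_245e03_an, Q2)
-/

set_option autoImplicit false

open Set Filter Topology
open Pool.Agent.R277.JT

namespace Pool.Agent.D0H29.JT

/-- segments from convex chains -/
lemma isSeg_of_chain {T : Finset Tree} (hne : T.Nonempty) (hch : ∀ a ∈ T, ∀ b ∈ T, a ≤ b ∨ b ≤ a)
    (hcv : ∀ a ∈ T, ∀ b ∈ T, ∀ c, a ≤ c → c ≤ b → c ∈ T) : IsSeg T := by
  obtain ⟨m, hm1, hm2⟩ := T.exists_minimal hne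
  obtain ⟨M, hM1, hM2⟩ := T.exists_maximal hne
  have hmin : ∀ b ∈ T, m ≤ b := by
    intro b hb
    rcases hch m hm1 b hb with h | h
    · exact h
    · exact hm2 hb h
  have hmax : ∀ b ∈ T, b ≤ M := by
    intro b hb
    rcases hch M hM1 b hb with h | h
    · exact hM2 hb h
    · exact h
  exact ⟨m, M, hmin M hM1, fun b => ⟨fun hb => ⟨hmin b hb, hmax b hb⟩,
    fun h => hcv m hm1 M hM1 b h.1 h.2⟩⟩

/-- push-forward along a map of the tree -/
noncomputable def psL (g : Tree → Tree) : Pre Tree →ₗ[ℝ] Pre Tree :=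
  (show (Tree →₀ ℝ) →ₗ[ℝ] (Tree →₀ ℝ) from Finsupp.lmapDomain ℝ ℝ g)

lemma psL_val {g : Tree → Tree} (hg : Function.Injective g) (x : Pre Tree) (l : Tree) :
    (psL g x).val (g l) = x.val l := Finsupp.mapDomain_apply hg _ _

lemma psL_val_not {g : Tree → Tree} (x : Pre Tree) {i : Tree} (hi : i ∉ range g) :
    (psL g x).val i = 0 := Finsupp.mapDomain_of_notMem_range _ _ hi

lemma psL_ev (g : Tree → Tree) (l : Tree) : psL g (ev l) = ev (g l) := by
  change Finsupp.mapDomain g (Finsupp.single l (1:ℝ)) = Finsupp.single (g l) (1:ℝ)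
  exact Finsupp.mapDomain_single

lemma emb_inj {g : Tree → Tree} (hg : ∀ a b, g a ≤ g b ↔ a ≤ b) : Function.Injective g := by
  intro a b hab
  exact le_antisymm ((hg a b).1 hab.le) ((hg b a).1 hab.ge)

lemma norm_psL_le {g : Tree → Tree} (hg : ∀ a b, g a ≤ g b ↔ a ≤ b) (x : Pre Tree) :
    ‖psL g x‖ ≤ ‖x‖ := by
  classical
  have hinj := emb_inj hg
  have h := sum_sq_abs ({()} : Finset Unit) (fun _ => psL g x) x
    (fun _ S => S.preimage g hinj.injOn) ?_ ?_ ?_ ?_
  · rw [Finset.sum_singleton] at h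
    exact le_of_sq_le_sq h (norm_nonneg x)
  · rintro - - S ⟨a, c, hac, hm⟩ hne
    apply isSeg_of_chain hne
    · intro p hp q hq
      rw [Finset.mem_preimage, hm] at hp hq
      rw [← hg p q, ← hg q p]
      exact Forest.comp _ _ _ hp.2 hq.2
    · intro p hp q hq r h1 h2
      rw [Finset.mem_preimage, hm] at hp hq ⊢
      exact ⟨hp.1.trans ((hg _ _).2 h1), ((hg _ _).2 h2).trans hq.2⟩
  · rintro - - S -
    unfold ss
    rw [← Finset.sum_preimage g S hinj.injOn]
    · exact Finset.sum_congr rfl fun l _ => psL_val hinj x l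
    · intro i _ hi
      exact psL_val_not x hi
  · rintro - - S S' - - hdis
    rw [Finset.disjoint_left] at hdis ⊢
    intro l h1 h2
    rw [Finset.mem_preimage] at h1 h2
    exact hdis h1 h2
  · rintro i - j - hij
    exact absurd rfl hij

/-- push-forward as a continuous linear map -/
noncomputable def ps (g : Tree → Tree) (hg : ∀ a b, g a ≤ g b ↔ a ≤ b) : Pre Tree →L[ℝ] Pre Tree :=
  (psL g).mkContinuous 1 (fun x => by rw [one_mul]; exact norm_psL_le hg x)

lemma ps_ev (g : Tree → Tree) (hg : ∀ a b, g a ≤ g b ↔ a ≤ b) (l : Tree) :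
    ps g hg (ev l) = ev (g l) := psL_ev g l

lemma norm_comp_ps_le (g : Tree → Tree) (hg : ∀ a b, g a ≤ g b ↔ a ≤ b) (f : D Tree) :
    ‖f.comp (ps g hg)‖ ≤ ‖f‖ := by
  apply ContinuousLinearMap.opNorm_le_bound _ (norm_nonneg _)
  intro x
  exact (f.le_opNorm _).trans (mul_le_mul_of_nonneg_left (norm_psL_le hg x) (norm_nonneg _))

lemma sum_union_le' {ι : Type*} [DecidableEq ι] (s t : Finset ι) {f : ι → ℝ} (hf : ∀ i, 0 ≤ f i) :
    ∑ i ∈ s ∪ t, f i ≤ ∑ i ∈ s, f i + ∑ i ∈ t, f i := by
  have h1 := Finset.sum_union_inter (s₁ := s) (s₂ := t) (f := f)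
  have h2 : 0 ≤ ∑ i ∈ s ∩ t, f i := Finset.sum_nonneg fun i _ => hf i
  linarith

/-- sums over words -/
lemma sum_words_aux (N : ℕ) : ∀ A : Finset (List Bool), (∀ a ∈ A, a.length < N) →
    ∑ a ∈ A, ((1:ℝ) / 4) ^ a.length ≤ 2 := by
  classical
  induction N with
  | zero =>
    intro A hA
    have : A = ∅ := by
      rw [Finset.eq_empty_iff_forall_notMem]
      intro a ha
      exact absurd (hA a ha) (by omega)
    rw [this, Finset.sum_empty]
    norm_num
  | succ N ih =>
    intro A hA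
    have hinj : ∀ b : Bool, Function.Injective (List.cons b) := fun b x y h => (List.cons.inj h).2
    let A' : Bool → Finset (List Bool) := fun b => A.preimage (List.cons b) (hinj b).injOn
    have hA' : ∀ b, ∀ a ∈ A' b, a.length < N := by
      intro b a ha
      have h1 : b :: a ∈ A := Finset.mem_preimage.1 ha
      have h2 := hA _ h1
      rw [List.length_cons] at h2
      omega
    have h1 : A ⊆ insert [] ((A' true).image (List.cons true) ∪ (A' false).image (List.cons false)) := by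
      intro a ha
      rcases a with _ | ⟨b, l⟩
      · exact Finset.mem_insert_self _ _
      · apply Finset.mem_insert_of_mem
        rw [Finset.mem_union]
        cases b
        · right
          exact Finset.mem_image.2 ⟨l, Finset.mem_preimage.2 ha, rfl⟩
        · left
          exact Finset.mem_image.2 ⟨l, Finset.mem_preimage.2 ha, rfl⟩
    have hpos : ∀ a : List Bool, 0 ≤ ((1:ℝ) / 4) ^ a.length := fun a => by positivity
    have h2 := Finset.sum_le_sum_of_subset_of_nonneg h1 (fun a _ _ => hpos a)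
    have h3 : ∑ a ∈ insert [] ((A' true).image (List.cons true) ∪ (A' false).image (List.cons false)),
        ((1:ℝ) / 4) ^ a.length ≤ 1 + ∑ a ∈ (A' true).image (List.cons true) ∪
          (A' false).image (List.cons false), ((1:ℝ) / 4) ^ a.length := by
      rw [Finset.insert_eq]
      refine (sum_union_le' _ _ hpos).trans ?_
      rw [Finset.sum_singleton]
      simp
    have h4 : ∑ a ∈ (A' true).image (List.cons true) ∪ (A' false).image (List.cons false),
        ((1:ℝ) / 4) ^ a.length ≤ ∑ a ∈ (A' true).image (List.cons true), ((1:ℝ) / 4) ^ a.length +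
        ∑ a ∈ (A' false).image (List.cons false), ((1:ℝ) / 4) ^ a.length :=
      sum_union_le' _ _ hpos
    have h5 : ∀ b, ∑ a ∈ (A' b).image (List.cons b), ((1:ℝ) / 4) ^ a.length ≤ 1 / 2 := by
      intro b
      rw [Finset.sum_image (fun x _ y _ h => hinj b h)]
      have h6 := ih (A' b) (hA' b)
      have h7 : ∑ a ∈ A' b, ((1:ℝ) / 4) ^ (b :: a).length = (1 / 4) * ∑ a ∈ A' b, ((1:ℝ) / 4) ^ a.length := by
        rw [Finset.mul_sum]
        apply Finset.sum_congr rfl
        intro a _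
        rw [List.length_cons, pow_succ]
        ring
      rw [h7]
      linarith
    linarith [h5 true, h5 false]

lemma sum_words (A : Finset (List Bool)) : ∑ a ∈ A, ((1:ℝ) / 4) ^ a.length ≤ 2 := by
  apply sum_words_aux (A.sup List.length + 1)
  intro a ha
  have := Finset.le_sup (f := List.length) ha
  omega

namespace Sch

variable {Φ : Fam} (S : Sch Φ)

lemma lev_pp (α : List Bool) : lev (S.pp α) = S.kk α.length := by
  obtain ⟨c, hc⟩ := nonempty_of_unc (S.nd α).unc
  rw [← (S.nd α).main c hc, IsBr.lev_eq]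

lemma pp_mono {α β : List Bool} (h : α <+: β) : S.pp α ≤ S.pp β := by
  obtain ⟨c, hc⟩ := nonempty_of_unc (S.nd β).unc
  have h1 : c ∈ S.II α := by
    have := S.take_sub h.length_le hc
    rwa [← List.prefix_iff_eq_take.1 h] at this
  rw [← (S.nd α).main c h1, ← (S.nd β).main c hc]
  exact IsBr.mono (S.kk_strict.monotone h.length_le)

lemma mainsep' {α β : List Bool} (h : α.length = β.length) (hne : α ≠ β) {c : Br}
    (hc : c ∈ S.II β) {d : Br} (hd : d ∈ Φ.F β.length c) : br d (S.kk β.length) ≠ S.pp α := by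
  have h1 := (S.inv β.length).mainsep α β h rfl hne c hc d hd
  unfold pp
  rw [h]
  exact h1

lemma pp_le {α β : List Bool} (h : S.pp α ≤ S.pp β) : α <+: β := by
  have h1 := lev_mono h
  rw [lev_pp, lev_pp] at h1
  have h2 : α.length ≤ β.length := S.kk_strict.le_iff_le.1 h1
  rw [List.prefix_iff_eq_take]
  by_contra hne
  have hl : (β.take α.length).length = α.length := by
    rw [List.length_take]
    omega
  have h3 : S.pp (β.take α.length) ≤ S.pp β := S.pp_mono (List.take_prefix _ _)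
  have h4 : S.pp (β.take α.length) = S.pp α := by
    have l1 := S.lev_pp α
    have l2 := S.lev_pp (β.take α.length)
    rw [hl] at l2
    rcases Forest.comp _ _ _ h h3 with h5 | h5
    · exact (eq_of_lev h5 (by rw [l1, l2])).symm
    · exact eq_of_lev h5 (by rw [l1, l2])
  obtain ⟨c, hc⟩ := nonempty_of_unc (S.nd (β.take α.length)).unc
  have h5 := (S.nd (β.take α.length)).main c hc
  exact S.mainsep' hl.symm hne hc (Φ.F_self _ _) (h5.trans h4)

/-- the main node of a node of the tree -/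
def ψ (t : Tree) : Tree := S.pp (false :: L t)

lemma ψ_emb (a b : Tree) : S.ψ a ≤ S.ψ b ↔ a ≤ b := by
  constructor
  · intro h
    have h1 := S.pp_le h
    exact (List.cons_prefix_cons.1 h1).2
  · intro h
    exact S.pp_mono (List.cons_prefix_cons.2 ⟨rfl, h⟩)

open Classical in
/-- values of members of the family at nodes of the right level -/
lemma y_ev {α : List Bool} {c : Br} (hc : c ∈ S.II α) {q : Tree} (hq : lev q = S.kk α.length) :
    |Φ.y c (ev q) - ∑ d ∈ Φ.F α.length c with br d (S.kk α.length) = q, Lm (br d) (Φ.y c)| ≤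
      Φ.ε α.length := by
  have hnd := S.nd α
  have h1 := Φ.app α.length c (S.kk α.length) (hnd.lev c hc)
  have h2 := abs_apply_ev_le (cut (Φ.y c) (lv Tree (S.kk α.length)) -
    ∑ d ∈ Φ.F α.length c, Lm (br d) (Φ.y c) • sg (br d) (S.kk α.length)) q
  rw [_root_.sub_apply, cut_ev (Φ.y c) (A := lv Tree (S.kk α.length))
    (show S.kk α.length ≤ lev q from hq.ge), _root_.sum_apply] at h2
  have h3 : ∑ d ∈ Φ.F α.length c, (Lm (br d) (Φ.y c) • sg (br d) (S.kk α.length)) (ev q) =
      ∑ d ∈ Φ.F α.length c with br d (S.kk α.length) = q, Lm (br d) (Φ.y c) := by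
    rw [Finset.sum_filter]
    apply Finset.sum_congr rfl
    intro d _
    rw [_root_.smul_apply, sg_ev, smul_eq_mul, mul_ite, mul_one, mul_zero]
    apply if_congr _ rfl rfl
    rw [← hq]
    exact ⟨fun h => h.2, fun h => ⟨le_rfl, h⟩⟩
  rw [h3] at h2
  exact h2.trans h1

/-- averages at the main node -/
lemma g_self (α : List Bool) : |S.gg α (ev (S.pp α)) - 1| ≤ Φ.ε α.length := by
  classical
  have hnd := S.nd α
  have key : ∀ c ∈ S.CC α, |Φ.y c (ev (S.pp α)) - 1| ≤ Φ.ε α.length := by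
    intro c hc
    have hcI := (S.hCC α).sub c hc
    have h1 := S.y_ev hcI (S.lev_pp α)
    have h2 : (Φ.F α.length c).filter (fun d => br d (S.kk α.length) = S.pp α) = {c} := by
      ext d
      rw [Finset.mem_filter, Finset.mem_singleton]
      constructor
      · rintro ⟨h3, h4⟩
        by_contra hne
        have h5 := Φ.sep α.length c (S.kk α.length) (hnd.lev c hcI) d h3 c (Φ.F_self _ _) hne
        exact h5 (h4.trans (hnd.main c hcI).symm)
      · rintro rfl
        exact ⟨Φ.F_self _ _, hnd.main d hcI⟩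
    rw [h2, Finset.sum_singleton, Φ.Lm_self c (hnd.sub hcI)] at h1
    exact h1
  have hcp := S.card_pos α
  rw [S.gg_eq, S.av_apply]
  have h1 : ((S.CC α).card : ℝ)⁻¹ * ∑ c ∈ S.CC α, Φ.y c (ev (S.pp α)) - 1 =
      ((S.CC α).card : ℝ)⁻¹ * ∑ c ∈ S.CC α, (Φ.y c (ev (S.pp α)) - 1) := by
    rw [Finset.sum_sub_distrib, Finset.sum_const, nsmul_eq_mul, mul_one, mul_sub,
      inv_mul_cancel₀ hcp.ne']
  rw [h1, abs_mul, abs_inv, abs_of_pos hcp, inv_mul_le_iff₀ hcp]
  refine (Finset.abs_sum_le_sum_abs _ _).trans ?_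
  have := Finset.sum_le_sum key
  rwa [Finset.sum_const, nsmul_eq_mul] at this

/-- averages at other nodes of the same level -/
lemma g_other {α β : List Bool} (h : β.length = α.length) (hne : β ≠ α) :
    |S.gg α (ev (S.pp β))| ≤ Φ.ε α.length := by
  classical
  have key : ∀ c ∈ S.CC α, |Φ.y c (ev (S.pp β))| ≤ Φ.ε α.length := by
    intro c hc
    have hcI := (S.hCC α).sub c hc
    have h1 := S.y_ev hcI (q := S.pp β) (by rw [S.lev_pp, h])
    have h2 : (Φ.F α.length c).filter (fun d => br d (S.kk α.length) = S.pp β) = ∅ := by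
      rw [Finset.filter_eq_empty_iff]
      intro d hd
      exact S.mainsep' h hne hcI hd
    rw [h2, Finset.sum_empty, sub_zero] at h1
    exact h1
  have hcp := S.card_pos α
  rw [S.gg_eq, S.av_apply, abs_mul, abs_inv, abs_of_pos hcp, inv_mul_le_iff₀ hcp]
  refine (Finset.abs_sum_le_sum_abs _ _).trans ?_
  have := Finset.sum_le_sum key
  rwa [Finset.sum_const, nsmul_eq_mul] at this

/-- averages at lower nodes -/
lemma g_low {α : List Bool} {m : ℕ} (hm : m ≤ α.length) {q : Tree} (hq : lev q ≤ S.kk m) {c0 : Br}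
    (hc0 : c0 ∈ S.II (α.take m)) : |S.gg α (ev q) - Φ.y c0 (ev q)| ≤ Φ.ε m := by
  classical
  have hlen : (α.take m).length = m := by rw [List.length_take]; omega
  have hnd := S.nd (α.take m)
  have key : ∀ c ∈ S.CC α, |Φ.y c (ev q) - Φ.y c0 (ev q)| ≤ Φ.ε m := by
    intro c hc
    have hcI := S.take_sub hm ((S.hCC α).sub c hc)
    have h1 := hnd.close c hcI c0 hc0
    rw [hlen] at h1
    have h2 := abs_apply_ev_le (cut (Φ.y c - Φ.y c0) (lo Tree (S.kk m + 1))) q
    rw [cut_ev _ (A := lo Tree (S.kk m + 1)) (show lev q < S.kk m + 1 by omega), _root_.sub_apply] at h2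
    exact h2.trans h1
  have hcp := S.card_pos α
  rw [S.gg_eq, S.av_apply]
  have h1 : ((S.CC α).card : ℝ)⁻¹ * ∑ c ∈ S.CC α, Φ.y c (ev q) - Φ.y c0 (ev q) =
      ((S.CC α).card : ℝ)⁻¹ * ∑ c ∈ S.CC α, (Φ.y c (ev q) - Φ.y c0 (ev q)) := by
    rw [Finset.sum_sub_distrib, Finset.sum_const, nsmul_eq_mul, mul_sub, ← mul_assoc,
      inv_mul_cancel₀ hcp.ne', one_mul]
  rw [h1, abs_mul, abs_inv, abs_of_pos hcp, inv_mul_le_iff₀ hcp]
  refine (Finset.abs_sum_le_sum_abs _ _).trans ?_
  have := Finset.sum_le_sum key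
  rwa [Finset.sum_const, nsmul_eq_mul] at this

open Classical in
/-- the family is almost biorthogonal to the main nodes -/
lemma v_ev (hε : Antitone Φ.ε) (t s : Tree) :
    |S.v t (ev (S.ψ s)) - if s = t then 1 else 0| ≤ 2 * Φ.ε (max (lev t) (lev s)) := by
  unfold v ψ
  set α := false :: L t with hα
  set β := false :: L s with hβ
  have hlα : α.length = lev t + 1 := rfl
  have hlβ : β.length = lev s + 1 := rfl
  have hla : (α.take (L t).length).length = lev t := by
    rw [List.length_take, hlα]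
    change min (lev t) (lev t + 1) = lev t
    omega
  have hLt : (L t).length = lev t := rfl
  rw [_root_.sub_apply]
  rcases Nat.lt_or_ge (lev s) (lev t) with hst | hst
  · have hne : s ≠ t := by
      rintro rfl
      exact lt_irrefl _ hst
    rw [if_neg hne, sub_zero, max_eq_left hst.le]
    obtain ⟨c0, hc0⟩ := nonempty_of_unc (S.nd (α.take (lev t))).unc
    have hq : lev (S.pp β) ≤ S.kk (lev t) := by
      rw [S.lev_pp, hlβ]
      exact S.kk_strict.monotone hst
    have h1 := S.g_low (α := α) (m := lev t) (by omega) hq hc0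
    have h2 := S.g_low (α := α.take (lev t)) (m := lev t) hla.ge hq
      (c0 := c0) (by rwa [List.take_take, min_self])
    have h3 := abs_sub_le_iff.1 h1
    have h4 := abs_sub_le_iff.1 h2
    rw [hLt, abs_le]
    constructor <;> linarith
  · rw [max_eq_right hst]
    have e1 : Φ.ε β.length ≤ Φ.ε (lev s) := hε (by omega)
    have h1 : |S.gg (α.take (L t).length) (ev (S.pp β))| ≤ Φ.ε (lev s) := by
      refine (S.small ?_).trans e1
      rw [hla, hlβ]
      omega
    have h2 : |S.gg α (ev (S.pp β)) - if s = t then 1 else 0| ≤ Φ.ε (lev s) := by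
      by_cases hst' : s = t
      · rw [if_pos hst']
        subst hst'
        exact (S.g_self α).trans e1
      · rw [if_neg hst', sub_zero]
        rcases hst.eq_or_lt with h | h
        · have h3 := S.g_other (α := α) (β := β) (by rw [hlα, hlβ, h]) (by
            intro h4
            apply hst'
            exact L_inj (List.tail_eq_of_cons_eq h4))
          rw [hlα, h] at h3
          rw [hlβ] at e1
          exact h3.trans e1
        · exact (S.small (by rw [hlα, hlβ]; omega)).trans e1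
    have h3 := abs_le.1 h1
    have h4 := abs_le.1 h2
    rw [abs_le]
    constructor <;> linarith

/-- the lower estimate -/
theorem lower_est (hε : Antitone Φ.ε) (hε4 : ∀ l, Φ.ε l ≤ (1 / 16) * (1 / 16) ^ l) (n : ℕ)
    (φ : D Tree) : (1 / 2) * ‖cut φ (lo Tree n)‖ ≤ ‖TT S.v n φ‖ := by
  classical
  set g := TT S.v n φ with hg
  set φ0 := cut φ (lo Tree n) with hφ0
  have h1 : ‖g.comp (ps S.ψ S.ψ_emb)‖ ≤ ‖g‖ := norm_comp_ps_le _ _ _
  -- values at unit vectors
  have h2 : ∀ s : Tree, |(g.comp (ps S.ψ S.ψ_emb) - φ0) (ev s)| ≤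
      ‖φ0‖ * (∑ t ∈ bn n, 2 * Φ.ε (max (lev t) (lev s))) := by
    intro s
    have e1 : (g.comp (ps S.ψ S.ψ_emb)) (ev s) = ∑ t ∈ bn n, φ0 (ev t) * S.v t (ev (S.ψ s)) := by
      rw [ContinuousLinearMap.comp_apply, ps_ev, hg]
      unfold TT
      rw [_root_.sum_apply]
      apply Finset.sum_congr rfl
      intro t ht
      rw [_root_.smul_apply, smul_eq_mul, hφ0, cut_ev φ (A := lo Tree n) (mem_bn.1 ht)]
    have e2 : φ0 (ev s) = ∑ t ∈ bn n, φ0 (ev t) * (if s = t then 1 else 0) := by
      simp only [mul_ite, mul_one, mul_zero]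
      rw [Finset.sum_ite_eq]
      by_cases hs : s ∈ bn n
      · rw [if_pos hs]
      · rw [if_neg hs, hφ0, cut_ev_not φ (A := lo Tree n) (fun h => hs (mem_bn.2 h))]
    rw [_root_.sub_apply, e1, e2, ← Finset.sum_sub_distrib, Finset.mul_sum]
    refine (Finset.abs_sum_le_sum_abs _ _).trans (Finset.sum_le_sum fun t _ => ?_)
    rw [← mul_sub, abs_mul]
    exact mul_le_mul (abs_apply_ev_le _ _) (S.v_ev hε t s) (abs_nonneg _) (norm_nonneg _)
  have hmax : ∀ a b : ℕ, 2 * Φ.ε (max a b) ≤ (1 / 8) * ((1 / 4) ^ a * (1 / 4) ^ b) := by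
    intro a b
    have e1 := hε4 (max a b)
    have e2 : ((1:ℝ) / 16) ^ (max a b) ≤ (1 / 4) ^ a * (1 / 4) ^ b := by
      have e3 : ((1:ℝ) / 16) ^ (max a b) = (1 / 4) ^ (2 * max a b) := by
        rw [pow_mul]; norm_num
      rw [e3, ← pow_add]
      apply pow_le_pow_of_le_one (by norm_num) (by norm_num)
      have := le_max_left a b
      have := le_max_right a b
      omega
    linarith
  have h3 : ∀ s : Tree, ∑ t ∈ bn n, 2 * Φ.ε (max (lev t) (lev s)) ≤ (1 / 4) * (1 / 4) ^ (lev s) := by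
    intro s
    refine (Finset.sum_le_sum fun t _ => hmax (lev t) (lev s)).trans ?_
    rw [← Finset.mul_sum, ← Finset.sum_mul]
    have h4 : ∑ t ∈ bn n, ((1:ℝ) / 4) ^ (lev t) ≤ 2 := sum_words (bn n)
    have h5 : (0:ℝ) ≤ (1 / 4) ^ (lev s) := by positivity
    nlinarith
  have h4 : ‖g.comp (ps S.ψ S.ψ_emb) - φ0‖ ≤ (1 / 2) * ‖φ0‖ := by
    apply ContinuousLinearMap.opNorm_le_bound _ (by positivity)
    intro x
    have e0 : (g.comp (ps S.ψ S.ψ_emb) - φ0) x = ∑ i ∈ (show Tree →₀ ℝ from x).support,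
        x.val i * (g.comp (ps S.ψ S.ψ_emb) - φ0) (ev i) := by
      conv_lhs => rw [expand x]
      rw [map_sum]
      exact Finset.sum_congr rfl fun i _ => by rw [map_smul, smul_eq_mul]
    rw [e0, Real.norm_eq_abs]
    refine (Finset.abs_sum_le_sum_abs _ _).trans ?_
    have e1 : ∀ i ∈ (show Tree →₀ ℝ from x).support,
        |x.val i * (g.comp (ps S.ψ S.ψ_emb) - φ0) (ev i)| ≤
        ‖x‖ * (‖φ0‖ * ((1 / 4) * (1 / 4) ^ (lev i))) := by
      intro i _
      rw [abs_mul]
      apply mul_le_mul (val_le x i) _ (abs_nonneg _) (norm_nonneg _)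
      exact (h2 i).trans (mul_le_mul_of_nonneg_left (h3 i) (norm_nonneg _))
    refine (Finset.sum_le_sum e1).trans ?_
    rw [← Finset.mul_sum, ← Finset.mul_sum, ← Finset.mul_sum]
    have e2 : ∑ i ∈ (show Tree →₀ ℝ from x).support, ((1:ℝ) / 4) ^ (lev i) ≤ 2 := sum_words _
    have e3 := norm_nonneg x
    have e4 := norm_nonneg φ0
    calc ‖x‖ * (‖φ0‖ * (1 / 4 * ∑ i ∈ (show Tree →₀ ℝ from x).support, ((1:ℝ) / 4) ^ (lev i))) ≤
        ‖x‖ * (‖φ0‖ * (1 / 4 * 2)) := by gcongr
      _ = 1 / 2 * ‖φ0‖ * ‖x‖ := by ring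
  have h5 : ‖φ0‖ ≤ ‖g.comp (ps S.ψ S.ψ_emb)‖ + ‖g.comp (ps S.ψ S.ψ_emb) - φ0‖ := by
    have := norm_sub_le (g.comp (ps S.ψ S.ψ_emb)) (g.comp (ps S.ψ S.ψ_emb) - φ0)
    rwa [sub_sub_cancel] at this
  linarith

end Sch

end Pool.Agent.D0H29.JT
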