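import Pool.Agent.D0H29.JT.Nonsep
import Pool.Agent.R277.JT.Compl

/-!
# Non-separable subspaces: the theorem for abstract spaces (helper file for MP_245e03_an, Q2)
-/

set_option autoImplicit false

open Set Filter Topology
open Pool.Agent.R277.JT

namespace Pool.Agent.D0H29.JT

open TopologicalSpace in
/-- The theorem for spaces `Y` isometrically embedded into `JT*`. -/
theorem main_Y {Y E : Type*} [NormedAddCommGroup Y] [NormedSpace ℝ Y] [CompleteSpace Y]
    [NormedAddCommGroup E] [NormedSpace ℝ E] [CompleteSpace E] (i : Y →ₗᵢ[ℝ] D Tree)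
    (hY : ¬ SeparableSpace Y) (j : E →ₗᵢ[ℝ] D Tree)
    (hj : ∀ (φ : E) (d : Br), Lm (br d) (j φ) = 0) :
    ∃ Z : Submodule ℝ Y, IsClosed (Z : Set Y) ∧ Nonempty (Z ≃L[ℝ] E) := by
  have hRset : (LinearMap.range i.toLinearMap : Set (D Tree)) = Set.range i := rfl
  have hRc : IsClosed (LinearMap.range i.toLinearMap : Set (D Tree)) := by
    rw [hRset]
    exact i.isometry.isClosedEmbedding.isClosed_range
  have hR : ¬ IsSeparable (LinearMap.range i.toLinearMap : Set (D Tree)) := by
    intro h
    apply hY
    rw [hRset] at h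
    have h1 := i.isometry.isEmbedding.isInducing.isSeparable_preimage h
    rw [Set.preimage_range] at h1
    exact isSeparable_univ_iff.1 h1
  obtain ⟨T, hT1, hT2⟩ := main_D j hj _ hRc hR
  choose g hg using hT1
  have hinj : Function.Injective i := i.injective
  have hg' : ∀ f, i (g f) = T f := hg
  let U : E →ₗ[ℝ] Y :=
    { toFun := fun f => g f
      map_add' := by
        intro a b
        apply hinj
        rw [hg', map_add, map_add, hg', hg']
      map_smul' := by
        intro a b
        apply hinj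
        rw [hg', map_smul, map_smul, RingHom.id_apply, hg'] }
  have hUn : ∀ f, ‖U f‖ = ‖T f‖ := by
    intro f
    rw [← i.norm_map (U f)]
    exact congrArg norm (hg' f)
  have hUb : ∀ f, ‖U f‖ ≤ ‖T‖ * ‖f‖ := by
    intro f
    rw [hUn]
    exact T.le_opNorm _
  apply range_of_bound (U.mkContinuous ‖T‖ hUb) (c := 1 / 2) (by norm_num)
  intro f
  have h1 : ‖(U.mkContinuous ‖T‖ hUb) f‖ = ‖T f‖ := hUn f
  rw [h1]
  exact hT2 f

end Pool.Agent.D0H29.JT
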