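import Pool.Agent.D0H29.JT.Est6

/-!
# Non-separable subspaces (helper file for MP_245e03_an, Q2)
-/

set_option autoImplicit false

open Set Filter Topology
open Pool.Agent.R277.JT

namespace Pool.Agent.D0H29.JT

/-- the coordinate functionals -/
noncomputable def es (t : Tree) : D Tree :=
  LinearMap.mkContinuous (⟨⟨fun x => x.val t, fun x y => val_add x y t⟩,
    fun c x => val_smul c x t⟩ : Pre Tree →ₗ[ℝ] ℝ) 1
    (fun x => by rw [one_mul]; exact val_le x t)

lemma es_apply (t : Tree) (x : Pre Tree) : es t x = x.val t := rfl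

lemma Lm_es (t : Tree) (d : Br) : Lm (br d) (es t) = 0 := by
  apply tendsto_nhds_unique (tendsto_Lm (br d) (es t))
  apply tendsto_const_nhds.congr'
  filter_upwards [eventually_gt_atTop (lev t)] with n hn
  rw [es_apply, val_ev_ne]
  rintro h
  rw [← h, IsBr.lev_eq] at hn
  exact lt_irrefl _ hn

lemma cut_lo_eq (y : D Tree) (k : ℕ) : cut y (lo Tree k) = ∑ t ∈ bn k, y (ev t) • es t := by
  classical
  apply D_ext
  intro i
  rw [_root_.sum_apply]
  have h1 : ∀ t ∈ bn k, (y (ev t) • es t) (ev i) = if t = i then y (ev t) else 0 := by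
    intro t _
    rw [_root_.smul_apply, es_apply, val_ev, smul_eq_mul, mul_ite, mul_one, mul_zero]
    exact if_congr eq_comm rfl rfl
  rw [Finset.sum_congr rfl h1, Finset.sum_ite_eq']
  by_cases hi : i ∈ bn k
  · rw [if_pos hi, cut_ev y (A := lo Tree k) (mem_bn.1 hi)]
  · rw [if_neg hi, cut_ev_not y (A := lo Tree k) (fun h => hi (mem_bn.2 h))]

open TopologicalSpace in
/-- many branches are seen by a non-separable subspace -/
lemma unc_branches (R : Set (D Tree)) (hR : ¬ IsSeparable R) :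
    ¬ {c : Br | ∃ y ∈ R, Lm (br c) y ≠ 0}.Countable := by
  classical
  intro hc
  apply hR
  set Γ := {c : Br | ∃ y ∈ R, Lm (br c) y ≠ 0} with hΓ
  let G : Set (D Tree) := (Set.range es) ∪ (fun p : Br × ℕ => sg (br p.1) p.2) '' (Γ ×ˢ Set.univ)
  have hG : G.Countable := (Set.countable_range _).union ((hc.prod Set.countable_univ).image _)
  have hsp : IsSeparable (closure (Submodule.span ℝ G : Set (D Tree))) :=
    (hG.isSeparable.span (R := ℝ)).closure
  refine hsp.mono ?_
  intro y hy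
  rw [Metric.mem_closure_iff]
  intro ε hε
  obtain ⟨F, hF⟩ := structA y (half_pos hε)
  obtain ⟨k, hk⟩ := hF F Finset.Subset.rfl
  have h1 := hk k le_rfl
  refine ⟨cut y (lo Tree k) + ∑ c ∈ F, Lm (br c) y • sg (br c) k, ?_, ?_⟩
  · apply Submodule.add_mem
    · rw [cut_lo_eq]
      apply Submodule.sum_mem
      intro t _
      exact Submodule.smul_mem _ _ (Submodule.subset_span (Or.inl ⟨t, rfl⟩))
    · apply Submodule.sum_mem
      intro c _
      by_cases h0 : Lm (br c) y = 0
      · rw [h0, zero_smul]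
        exact Submodule.zero_mem _
      · exact Submodule.smul_mem _ _ (Submodule.subset_span (Or.inr ⟨(c, k), ⟨⟨y, hy, h0⟩, trivial⟩, rfl⟩))
  · rw [dist_eq_norm]
    have h2 : y - (cut y (lo Tree k) + ∑ c ∈ F, Lm (br c) y • sg (br c) k) =
        cut y (lv Tree k) - ∑ c ∈ F, Lm (br c) y • sg (br c) k := by
      nth_rewrite 1 [← cut_lo_add y k]
      abel
    rw [h2]
    exact h1.trans_lt (half_lt_self hε)

/-- the precision -/
noncomputable def eps (n : ℕ) : ℝ := (1 / 16) * (1 / 16) ^ n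

lemma eps_pos (n : ℕ) : 0 < eps n := by unfold eps; positivity

lemma eps_anti : Antitone eps := by
  intro m n h
  unfold eps
  apply mul_le_mul_of_nonneg_left _ (by norm_num)
  exact pow_le_pow_of_le_one (by norm_num) (by norm_num) h

lemma eps_sq (A : Finset (List Bool)) : ∑ a ∈ A, (eps a.length) ^ 2 ≤ 1 := by
  have h1 : ∀ a ∈ A, (eps a.length) ^ 2 ≤ (1 / 2) * (1 / 4) ^ a.length := by
    intro a _
    unfold eps
    have h2 : ((1:ℝ) / 16) ^ a.length ≤ (1 / 4) ^ a.length :=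
      pow_le_pow_left₀ (by norm_num) (by norm_num) _
    have h3 : ((1:ℝ) / 16) ^ a.length ≤ 1 := pow_le_one₀ (by norm_num) (by norm_num)
    have h4 : 0 ≤ ((1:ℝ) / 16) ^ a.length := by positivity
    nlinarith
  refine (Finset.sum_le_sum h1).trans ?_
  rw [← Finset.mul_sum]
  have := sum_words A
  linarith

open TopologicalSpace in
/-- the family in a non-separable subspace -/
theorem exists_fam (R : Submodule ℝ (D Tree)) (hR : ¬ IsSeparable (R : Set (D Tree))) :
    ∃ Φ : Fam, Φ.ε = eps ∧ ∀ c, Φ.y c ∈ R := by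
  classical
  have hunc := unc_branches (R : Set (D Tree)) hR
  set Γ := {c : Br | ∃ y ∈ (R : Set (D Tree)), Lm (br c) y ≠ 0} with hΓ
  have h1 : ∀ c : Br, ∃ y ∈ R, c ∈ Γ → Lm (br c) y = 1 := by
    intro c
    by_cases hc : c ∈ Γ
    · obtain ⟨y, hy, hy0⟩ := hc
      refine ⟨(Lm (br c) y)⁻¹ • y, R.smul_mem _ hy, fun _ => ?_⟩
      rw [Lm_smul, inv_mul_cancel₀ hy0]
    · exact ⟨0, R.zero_mem, fun h => absurd h hc⟩
  choose y hyR hy1 using h1
  obtain ⟨r, hr⟩ := fiber_unc (fun c => ⌈‖y c‖⌉₊) hunc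
  choose F0 hF0 using fun (m : ℕ) (c : Br) => structA (y c) (eps_pos m)
  let F : ℕ → Br → Finset Br := fun n c => insert c ((Finset.range (n + 1)).biUnion (fun m => F0 m c))
  have hF : ∀ n c, F0 n c ⊆ F n c := by
    intro n c d hd
    exact Finset.mem_insert_of_mem (Finset.mem_biUnion.2 ⟨n, Finset.self_mem_range_succ n, hd⟩)
  choose k0 hk0 using fun (n : ℕ) (c : Br) => hF0 n c (F n c) (hF n c)
  choose κ hκ using fun (n : ℕ) (c : Br) => exists_sep (F n c)
  refine ⟨⟨r, eps, y, F, fun n c => max (k0 n c) (κ n c), {c ∈ Γ | ⌈‖y c‖⌉₊ = r}, hr, eps_pos, ?_, ?_,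
    ?_, ?_, ?_, ?_⟩, rfl, hyR⟩
  · rintro c ⟨_, hc⟩
    rw [← hc]
    exact Nat.le_ceil _
  · rintro c ⟨hc, _⟩
    exact hy1 c hc
  · intro n c
    apply Finset.insert_subset_insert
    apply Finset.biUnion_subset_biUnion_of_subset_left
    exact Finset.range_subset_range.2 (by omega)
  · intro n c
    exact Finset.mem_insert_self _ _
  · intro n c k hk
    exact (hκ n c).mono ((le_max_right _ _).trans hk)
  · intro n c k hk
    exact hk0 n c k ((le_max_left _ _).trans hk)

open TopologicalSpace in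
/-- Operators into non-separable subspaces. -/
theorem main_D {E : Type*} [NormedAddCommGroup E] [NormedSpace ℝ E] (j : E →ₗᵢ[ℝ] D Tree)
    (hj : ∀ (φ : E) (d : Br), Lm (br d) (j φ) = 0)
    (R : Submodule ℝ (D Tree)) (hRc : IsClosed (R : Set (D Tree)))
    (hR : ¬ IsSeparable (R : Set (D Tree))) :
    ∃ T : E →L[ℝ] D Tree, (∀ f, T f ∈ R) ∧ ∀ f, (1 / 2) * ‖f‖ ≤ ‖T f‖ := by
  classical
  obtain ⟨Φ, hΦ, hΦR⟩ := exists_fam R hR
  obtain ⟨f, hf1, hf2⟩ := exists_scheme Φ
  let S : Sch Φ := ⟨f, hf1, hf2⟩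
  have hanti : Antitone Φ.ε := by rw [hΦ]; exact eps_anti
  have hsq : ∀ A : Finset (List Bool), ∑ a ∈ A, (Φ.ε a.length) ^ 2 ≤ 1 := by
    rw [hΦ]; exact eps_sq
  have h4 : ∀ l, Φ.ε l ≤ (1 / 16) * (1 / 16) ^ l := by
    intro l; rw [hΦ]; exact le_rfl
  have hgR : ∀ α, S.gg α ∈ R := by
    intro α
    rw [S.gg_eq]
    exact R.smul_mem _ (R.sum_mem fun c _ => hΦR c)
  have hpos : 0 ≤ 27 * Φ.M ^ 2 + 192 := by positivity
  refine operator j S.v (C := √(27 * Φ.M ^ 2 + 192)) (by norm_num) ?_ ?_ R hRc ?_ hj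
  · apply norm_TT_le (Real.sqrt_nonneg _)
    intro P n hP x
    rw [Real.sq_sqrt hpos]
    apply S.fam_est hanti hsq P (fun T => T.filter (fun t => lev t < n))
    · intro T hT hne
      have e1 : T.filter (fun t => lev t < n) = T.filter (fun t => t ∈ lo Tree n) := by
        ext t
        rw [Finset.mem_filter, Finset.mem_filter]
        exact Iff.rfl
      rw [e1] at hne ⊢
      exact seg_inter (hP.1 T hT) (inferInstance : (lo Tree n).OrdConnected) hne
    · intro T hT T' hT' hne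
      exact Finset.disjoint_filter_filter (hP.2 hT hT' hne)
  · exact S.lower_est hanti h4
  · intro t
    exact R.sub_mem (hgR _) (hgR _)

end Pool.Agent.D0H29.JT
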