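import Mathlib

/-!
# Combinatorial selection lemmas for uncountable families (helper file for MP_245e03_an, Q2)
-/

set_option autoImplicit false

open Set Filter Topology

namespace Pool.Agent.D0H29.JT

/-- dependent choice along `ℕ` with invariants -/
lemma dep_choice {S : Type*} (Inv : ℕ → S → Prop) (Rel : ℕ → S → S → Prop)
    (h0 : ∃ s, Inv 0 s) (hs : ∀ n s, Inv n s → ∃ s', Inv (n + 1) s' ∧ Rel n s s') :
    ∃ f : ℕ → S, (∀ n, Inv n (f n)) ∧ ∀ n, Rel n (f n) (f (n + 1)) := by
  classical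
  choose! F hF using hs
  obtain ⟨s0, h0⟩ := h0
  let f : ℕ → S := fun n => Nat.rec s0 (fun n s => F n s) n
  have hf : ∀ n, f (n + 1) = F n (f n) := fun n => rfl
  have hinv : ∀ n, Inv n (f n) := by
    intro n
    induction n with
    | zero => exact h0
    | succ n ih => rw [hf]; exact (hF n (f n) ih).1
  refine ⟨f, hinv, fun n => ?_⟩
  rw [hf]
  exact (hF n (f n) (hinv n)).2

lemma diff_uncountable {Γ : Type*} {A B : Set Γ} (hA : ¬ A.Countable) (hB : B.Countable) :
    ¬ (A \ B).Countable := by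
  intro h
  apply hA
  refine (h.union hB).mono ?_
  intro x hx
  by_cases hxB : x ∈ B
  · exact Or.inr hxB
  · exact Or.inl ⟨hx, hxB⟩

lemma nonempty_of_unc {Γ : Type*} {A : Set Γ} (hA : ¬ A.Countable) : A.Nonempty := by
  by_contra h
  rw [Set.not_nonempty_iff_eq_empty] at h
  rw [h] at hA
  exact hA Set.countable_empty

lemma fiber_unc {Γ T : Type*} [Countable T] (f : Γ → T) {A : Set Γ} (hA : ¬ A.Countable) :
    ∃ t, ¬ {c ∈ A | f c = t}.Countable := by
  by_contra h
  push Not at h
  apply hA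
  refine (Set.countable_iUnion h).mono ?_
  intro x hx
  exact Set.mem_iUnion.2 ⟨f x, hx, rfl⟩

/-- roots: a finite set contained in all `Φ c`, with each other element in countably many -/
lemma root {Γ Δ : Type*} (Φ : Γ → Finset Δ) {A : Set Γ} (hA : ¬ A.Countable) :
    ∃ (J : Set Γ) (R : Finset Δ), J ⊆ A ∧ ¬ J.Countable ∧ (∀ c ∈ J, R ⊆ Φ c) ∧
      ∀ d, d ∉ R → {c ∈ J | d ∈ Φ c}.Countable := by
  classical
  obtain ⟨q, hq⟩ := fiber_unc (fun c => (Φ c).card) hA
  by_contra hcon
  push Not at hcon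
  have key : ∀ r : ℕ, ∃ (J : Set Γ) (R : Finset Δ), J ⊆ {c ∈ A | (Φ c).card = q} ∧
      ¬ J.Countable ∧ (∀ c ∈ J, R ⊆ Φ c) ∧ R.card = r := by
    intro r
    induction r with
    | zero => exact ⟨_, ∅, Subset.rfl, hq, fun _ _ => Finset.empty_subset _, rfl⟩
    | succ r ih =>
      obtain ⟨J, R, hJ, hJc, hR, hr⟩ := ih
      obtain ⟨d, hd, hdc⟩ := hcon J R (fun c hc => (hJ hc).1) hJc hR
      refine ⟨{c ∈ J | d ∈ Φ c}, insert d R, fun c hc => hJ hc.1, hdc, ?_, ?_⟩
      · intro c hc
        exact Finset.insert_subset hc.2 (hR c hc.1)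
      · rw [Finset.card_insert_of_notMem hd, hr]
  obtain ⟨J, R, hJ, hJc, hR, hr⟩ := key (q + 1)
  obtain ⟨c, hc⟩ := nonempty_of_unc hJc
  have h1 := Finset.card_le_card (hR c hc)
  have h2 : (Φ c).card = q := (hJ hc).2
  omega

/-- choosing elements with pairwise good relations -/
lemma choose_many {ι Γ : Type*} [Nonempty Γ] (B : Finset ι) (J : ι → Set Γ)
    (hJ : ∀ i ∈ B, ¬ (J i).Countable) (bad : ι → ι → Γ → Γ → Prop)
    (hsymm : ∀ i j c c', bad i j c c' → bad j i c' c)
    (hbad : ∀ i ∈ B, ∀ j ∈ B, i ≠ j → ∀ c ∈ J i, {c' ∈ J j | bad i j c c'}.Countable) :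
    ∃ f : ι → Γ, (∀ i ∈ B, f i ∈ J i) ∧ ∀ i ∈ B, ∀ j ∈ B, i ≠ j → ¬ bad i j (f i) (f j) := by
  classical
  induction B using Finset.induction_on with
  | empty =>
    obtain ⟨c⟩ := (inferInstance : Nonempty Γ)
    exact ⟨fun _ => c, by simp, by simp⟩
  | insert a s ha ih =>
    obtain ⟨f, hf1, hf2⟩ := ih (fun i hi => hJ i (Finset.mem_insert_of_mem hi))
      (fun i hi j hj => hbad i (Finset.mem_insert_of_mem hi) j (Finset.mem_insert_of_mem hj))
    have hcount : (⋃ i ∈ s, {c' ∈ J a | bad i a (f i) c'}).Countable := by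
      apply Set.Countable.biUnion s.countable_toSet
      intro i hi
      exact hbad i (Finset.mem_insert_of_mem hi) a (Finset.mem_insert_self a s)
        (fun h => ha (h ▸ hi)) (f i) (hf1 i hi)
    obtain ⟨c, hc1, hc2⟩ := nonempty_of_unc (diff_uncountable (hJ a (Finset.mem_insert_self a s)) hcount)
    have hc3 : ∀ i ∈ s, ¬ bad i a (f i) c := by
      intro i hi hb
      apply hc2
      rw [Set.mem_iUnion₂]
      exact ⟨i, hi, hc1, hb⟩
    have hne : ∀ i ∈ s, i ≠ a := fun i hi h => ha (h ▸ hi)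
    refine ⟨Function.update f a c, ?_, ?_⟩
    · intro i hi
      rcases Finset.mem_insert.1 hi with rfl | hi
      · rw [Function.update_self]; exact hc1
      · rw [Function.update_of_ne (hne i hi)]; exact hf1 i hi
    · intro i hi j hj hij
      by_cases hia : i = a
      · by_cases hja : j = a
        · exact absurd (hia.trans hja.symm) hij
        · have hj' : j ∈ s := (Finset.mem_insert.1 hj).resolve_left hja
          rw [hia, Function.update_self, Function.update_of_ne hja]
          exact fun h => hc3 j hj' (hsymm _ _ _ _ h)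
      · have hi' : i ∈ s := (Finset.mem_insert.1 hi).resolve_left hia
        by_cases hja : j = a
        · rw [hja, Function.update_self, Function.update_of_ne hia]
          exact hc3 i hi'
        · have hj' : j ∈ s := (Finset.mem_insert.1 hj).resolve_left hja
          rw [Function.update_of_ne hia, Function.update_of_ne hja]
          exact hf2 i hi' j hj' hij

/-- all but countably many points of `J` are condensation points of `J` with respect to a map into
a second countable space -/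
lemma cond {Γ X : Type*} [TopologicalSpace X] [SecondCountableTopology X] (Θ : Γ → X)
    (J : Set Γ) : {c ∈ J | ∃ U, IsOpen U ∧ Θ c ∈ U ∧ {c' ∈ J | Θ c' ∈ U}.Countable}.Countable := by
  have hb := TopologicalSpace.isBasis_countableBasis X
  have hcount : (⋃ V ∈ {V ∈ TopologicalSpace.countableBasis X | {c' ∈ J | Θ c' ∈ V}.Countable},
      {c' ∈ J | Θ c' ∈ V}).Countable := by
    apply Set.Countable.biUnion
    · exact (TopologicalSpace.countable_countableBasis X).mono (Set.sep_subset _ _)
    · intro V hV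
      exact hV.2
  refine hcount.mono ?_
  rintro c ⟨hc, U, hU, hcU, hUc⟩
  obtain ⟨V, hV, hcV, hVU⟩ := hb.exists_subset_of_mem_open hcU hU
  rw [Set.mem_iUnion₂]
  exact ⟨V, ⟨hV, hUc.mono fun c' hc' => (⟨hc'.1, hVU hc'.2⟩ : c' ∈ {c' ∈ J | Θ c' ∈ U})⟩, hc, hcV⟩

end Pool.Agent.D0H29.JT
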