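import Pool.Agent.D0H29.JT.Pick
import Pool.Agent.R277.JT.Main

/-!
# A tree of uncountable sets of functionals (helper file for MP_245e03_an, Q2)
-/

set_option autoImplicit false

open Set Filter Topology
open Pool.Agent.R277.JT

namespace Pool.Agent.D0H29.JT

/-- branches of the dyadic tree -/
abbrev Br := ℕ → Bool

/-- An uncountable family of functionals `y c` with branch limit one along the branch `c`, and
approximations of their tails by finite combinations of branch functionals. -/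
structure Fam where
  M : ℝ
  ε : ℕ → ℝ
  y : Br → D Tree
  F : ℕ → Br → Finset Br
  ρ : ℕ → Br → ℕ
  I0 : Set Br
  unc : ¬ I0.Countable
  εpos : ∀ n, 0 < ε n
  norm_le : ∀ c ∈ I0, ‖y c‖ ≤ M
  Lm_self : ∀ c ∈ I0, Lm (br c) (y c) = 1
  F_mono : ∀ n c, F n c ⊆ F (n + 1) c
  F_self : ∀ n c, c ∈ F n c
  sep : ∀ n c k, ρ n c ≤ k → Sep (F n c) k
  app : ∀ n c k, ρ n c ≤ k →
    ‖cut (y c) (lv Tree k) - ∑ d ∈ F n c, Lm (br d) (y c) • sg (br d) k‖ ≤ ε n

/-- the state at one stage -/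
structure St where
  k : ℕ
  I : List Bool → Set Br
  R : List Bool → Finset Br
  g : List Bool → D Tree
  p : List Bool → Tree
  N : List Bool → Finset Tree

/-- the properties of one node on level `n` -/
structure Nd (Φ : Fam) (n k : ℕ) (I : Set Br) (R : Finset Br) (p : Tree) (N : Finset Tree) :
    Prop where
  unc : ¬ I.Countable
  sub : I ⊆ Φ.I0
  root : ∀ c ∈ I, R ⊆ Φ.F n c
  ctb : ∀ d, d ∉ R → {c ∈ I | d ∈ Φ.F n c}.Countable
  lev : ∀ c ∈ I, Φ.ρ n c ≤ k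
  close : ∀ c ∈ I, ∀ c' ∈ I, ‖cut (Φ.y c - Φ.y c') (lo Tree (k + 1))‖ ≤ Φ.ε n
  closeR : ∀ c ∈ I, ∀ c' ∈ I,
    ‖∑ d ∈ R, (Lm (br d) (Φ.y c) - Lm (br d) (Φ.y c')) • sg (br d) k‖ ≤ Φ.ε n
  pat : ∀ c ∈ I, ∀ d ∈ Φ.F n c, d ∉ R → br d k ∈ N
  main : ∀ c ∈ I, br c k = p
  levN : ∀ q ∈ N, Lev.lev q = k

/-- the invariant of stage `n` -/
structure Inv (Φ : Fam) (n : ℕ) (s : St) : Prop where
  nd : ∀ α : List Bool, α.length = n → Nd Φ n s.k (s.I α) (s.R α) (s.p α) (s.N α)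
  disj : ∀ α β : List Bool, α.length = n → β.length = n → α ≠ β → Disjoint (s.N α) (s.N β)
  mainsep : ∀ α β : List Bool, α.length = n → β.length = n → α ≠ β → ∀ c ∈ s.I β,
    ∀ d ∈ Φ.F n c, br d s.k ≠ s.p α

/-- `g` is an average of members of the family whose non-root branches are different -/
structure Avg (Φ : Fam) (n k : ℕ) (I : Set Br) (R : Finset Br) (g : D Tree) (C : Finset Br) :
    Prop where
  ne : C.Nonempty
  sub : ∀ c ∈ C, c ∈ I
  big : Φ.M ≤ Φ.ε n * √(C.card : ℝ)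
  dis : ∀ c ∈ C, ∀ c' ∈ C, c ≠ c' → ∀ d ∈ Φ.F n c, d ∈ Φ.F n c' → d ∈ R
  sep : ∀ c ∈ C, ∀ c' ∈ C, ∀ d ∈ Φ.F n c, ∀ d' ∈ Φ.F n c', d ≠ d' → br d k ≠ br d' k
  eq : g = (C.card : ℝ)⁻¹ • ∑ c ∈ C, Φ.y c

/-- the relation between consecutive stages -/
structure Rl (Φ : Fam) (n : ℕ) (s s' : St) : Prop where
  k_lt : s.k < s'.k
  sub : ∀ β : List Bool, β.length = n + 1 → s'.I β ⊆ s.I β.dropLast
  nr : ∀ β : List Bool, β.length = n + 1 → ∀ c ∈ s'.I β, ∀ d ∈ Φ.F n c, d ∉ s.R β.dropLast →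
    d ∉ s'.R β
  g_old : ∀ α : List Bool, α.length < n → s'.g α = s.g α
  avg : ∀ α : List Bool, α.length = n → ∃ C, Avg Φ n s'.k (s.I α) (s.R α) (s'.g α) C
  small : ∀ α β : List Bool, α.length ≤ n → β.length = n + 1 → |s'.g α (ev (s'.p β))| ≤ Φ.ε (n + 1)

/-- functionals are controlled on low levels by finitely many values -/
lemma norm_cut_lo_le (z : D Tree) (k : ℕ) :
    ‖cut z (lo Tree k)‖ ≤ ∑ i ∈ (Lev.fin (I := Tree) k).toFinset, |z (ev i)| := by
  classical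
  apply ContinuousLinearMap.opNorm_le_bound _ (Finset.sum_nonneg fun _ _ => abs_nonneg _)
  intro x
  have h1 : res (lo Tree k) x = ∑ i ∈ (Lev.fin (I := Tree) k).toFinset, x.val i • ev i := by
    apply ext_val
    intro j
    rw [val_res, val_sum]
    simp only [val_smul, val_ev, mul_ite, mul_one, mul_zero]
    rw [Finset.sum_ite_eq']
    simp only [Set.Finite.mem_toFinset]
    by_cases hj : lev j < k
    · rw [if_pos (show j ∈ lo Tree k from hj), if_pos (show j ∈ {i | lev i < k} from hj)]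
    · rw [if_neg (show j ∉ lo Tree k from hj), if_neg (show j ∉ {i | lev i < k} from hj)]
  rw [cut_apply, h1, map_sum, Real.norm_eq_abs, Finset.sum_mul]
  refine (Finset.abs_sum_le_sum_abs _ _).trans (Finset.sum_le_sum fun i _ => ?_)
  rw [map_smul, smul_eq_mul, abs_mul, mul_comm]
  exact mul_le_mul_of_nonneg_left (val_le x i) (abs_nonneg _)

lemma countable_supp (h : D Tree) : {d : Br | Lm (br d) h ≠ 0}.Countable := by
  refine (summable_Lm_sq h).countable_support.mono ?_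
  intro d hd
  exact pow_ne_zero 2 hd

/-- an eventually small value -/
lemma eventually_small {h : D Tree} {c : Br} (hc : Lm (br c) h = 0) {ε : ℝ} (hε : 0 < ε) :
    ∀ᶠ k in atTop, |h (ev (br c k))| ≤ ε := by
  have h1 := (tendsto_Lm (br c) h).abs
  rw [hc, abs_zero] at h1
  exact (h1.eventually_lt_const hε).mono fun _ h => h.le

/-- Choosing the nodes of one level. -/
theorem refine_nodes (Φ : Fam) (n : ℕ) (B : Finset (List Bool)) (A : List Bool → Set Br)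
    (hA : ∀ β ∈ B, ¬ (A β).Countable) (hA0 : ∀ β ∈ B, A β ⊆ Φ.I0) (n0 : ℕ)
    (Ψ : Br → Finset Br) (Q : List Bool → Finset Br)
    (hQ : ∀ β ∈ B, ∀ d, d ∉ Q β → {c ∈ A β | d ∈ Ψ c}.Countable)
    (W : Finset (List Bool)) (h : List Bool → D Tree) :
    ∃ (k : ℕ) (I : List Bool → Set Br) (R : List Bool → Finset Br) (p : List Bool → Tree)
      (N : List Bool → Finset Tree), n0 < k ∧
      (∀ β ∈ B, Nd Φ n k (I β) (R β) (p β) (N β)) ∧
      (∀ β ∈ B, I β ⊆ A β) ∧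
      (∀ α ∈ B, ∀ β ∈ B, α ≠ β → Disjoint (N α) (N β)) ∧
      (∀ α ∈ B, ∀ β ∈ B, α ≠ β → ∀ c ∈ I β, ∀ d ∈ Φ.F n c, br d k ≠ p α) ∧
      (∀ β ∈ B, ∀ c ∈ I β, ∀ d ∈ Ψ c, d ∉ Q β → d ∉ R β) ∧
      (∀ α ∈ W, ∀ β ∈ B, |h α (ev (p β))| ≤ Φ.ε n) := by
  classical
  -- step a: roots
  have ha : ∀ β, ∃ (J : Set Br) (R : Finset Br), β ∈ B → J ⊆ A β ∧ ¬ J.Countable ∧
      (∀ c ∈ J, R ⊆ Φ.F n c) ∧ ∀ d, d ∉ R → {c ∈ J | d ∈ Φ.F n c}.Countable := by
    intro β
    by_cases hβ : β ∈ B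
    · obtain ⟨J, R, h1⟩ := root (Φ.F n) (hA β hβ)
      exact ⟨J, R, fun _ => h1⟩
    · exact ⟨∅, ∅, fun h => absurd h hβ⟩
  choose J1 R hJ1 using ha
  -- step b: removal of branches which become root branches
  let J2 : List Bool → Set Br := fun β => J1 β \ {c | c ∈ A β ∧ ∃ d ∈ R β, d ∉ Q β ∧ d ∈ Ψ c}
  have hJ2 : ∀ β ∈ B, ¬ (J2 β).Countable := by
    intro β hβ
    apply diff_uncountable (hJ1 β hβ).2.1
    have : (⋃ d ∈ {d | d ∈ R β ∧ d ∉ Q β}, {c ∈ A β | d ∈ Ψ c}).Countable := by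
      apply Set.Countable.biUnion
      · exact (R β).countable_toSet.mono fun d hd => hd.1
      · intro d hd
        exact hQ β hβ d hd.2
    refine this.mono ?_
    rintro c ⟨hc, d, hd1, hd2, hd3⟩
    rw [Set.mem_iUnion₂]
    exact ⟨d, ⟨hd1, hd2⟩, hc, hd3⟩
  -- step c: common level
  have hc : ∀ β, ∃ r, β ∈ B → ¬ {c ∈ J2 β | Φ.ρ n c = r}.Countable := by
    intro β
    by_cases hβ : β ∈ B
    · obtain ⟨r, hr⟩ := fiber_unc (Φ.ρ n) (hJ2 β hβ)
      exact ⟨r, fun _ => hr⟩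
    · exact ⟨0, fun h => absurd h hβ⟩
  choose r hr using hc
  let J3 : List Bool → Set Br := fun β => {c ∈ J2 β | Φ.ρ n c = r β}
  -- step d: trunks
  let Pat : List Bool → Br → Set Tree := fun β c => {i | ∃ d ∈ Φ.F n c, d ∉ R β ∧ ∃ k, br d k = i}
  let Θ : (β : List Bool) → Br → (Tree → ℝ) × (ℕ → Bool) × (Tree → Bool) × (R β → ℝ) :=
    fun β c => (fun i => Φ.y c (ev i), c, fun i => decide (i ∈ Pat β c),
      fun d => Lm (br d.1) (Φ.y c))
  let Z : Set Br := (⋃ α ∈ W, {d : Br | Lm (br d) (h α) ≠ 0}) ∪ ⋃ β ∈ B, (R β : Set Br)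
  have hZ : Z.Countable := by
    apply Set.Countable.union
    · apply Set.Countable.biUnion W.countable_toSet
      intro α _
      exact countable_supp (h α)
    · apply Set.Countable.biUnion B.countable_toSet
      intro β _
      exact (R β).countable_toSet
  let J4 : List Bool → Set Br := fun β => (J3 β \
    {c ∈ J3 β | ∃ U, IsOpen U ∧ Θ β c ∈ U ∧ {c' ∈ J3 β | Θ β c' ∈ U}.Countable}) \ Z
  have hJ4 : ∀ β ∈ B, ¬ (J4 β).Countable := by
    intro β hβ
    exact diff_uncountable (diff_uncountable (hr β hβ) (cond (Θ β) (J3 β))) hZ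
  have h41 : ∀ β, J4 β ⊆ J1 β := fun β c hc => hc.1.1.1.1
  obtain ⟨t, ht1, ht2⟩ := choose_many B J4 hJ4
    (fun i j c c' => (∃ d, d ∈ Φ.F n c ∧ d ∉ R i ∧ d ∈ Φ.F n c' ∧ d ∉ R j) ∨ c ∈ Φ.F n c' ∨
      c' ∈ Φ.F n c)
    (by
      rintro i j c c' (⟨d, h1, h2, h3, h4⟩ | h | h)
      · exact Or.inl ⟨d, h3, h4, h1, h2⟩
      · exact Or.inr (Or.inr h)
      · exact Or.inr (Or.inl h))
    (by
      intro i hi j hj _ c hc
      have e1 : (⋃ d ∈ {d | d ∈ Φ.F n c ∧ d ∉ R j}, {c' ∈ J1 j | d ∈ Φ.F n c'}).Countable := by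
        apply Set.Countable.biUnion
        · exact (Φ.F n c).countable_toSet.mono fun d hd => hd.1
        · intro d hd
          exact (hJ1 j hj).2.2.2 d hd.2
      have hcR : c ∉ R j := fun hcon => hc.2 (Or.inr (Set.mem_iUnion₂.2 ⟨j, hj, hcon⟩))
      have e2 := (hJ1 j hj).2.2.2 c hcR
      refine ((e1.union e2).union (Φ.F n c).countable_toSet).mono ?_
      rintro c' ⟨hc', (⟨d, h1, h2, h3, h4⟩ | h | h)⟩
      · exact Or.inl (Or.inl (Set.mem_iUnion₂.2 ⟨d, ⟨h1, h4⟩, h41 j hc', h3⟩))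
      · exact Or.inl (Or.inr ⟨h41 j hc', h⟩)
      · exact Or.inr h)
  -- step e: the level
  have hev1 : ∀ᶠ k in atTop, ∀ α ∈ W, ∀ β ∈ B, |h α (ev (br (t β) k))| ≤ Φ.ε n := by
    rw [Filter.eventually_all_finset]
    intro α hα
    rw [Filter.eventually_all_finset]
    intro β hβ
    apply eventually_small _ (Φ.εpos n)
    by_contra hcon
    exact (ht1 β hβ).2 (Or.inl (Set.mem_iUnion₂.2 ⟨α, hα, hcon⟩))
  obtain ⟨k1, hk1⟩ := exists_sep (B.biUnion fun β => Φ.F n (t β))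
  obtain ⟨k, hk2, hk3, hk4, hk5⟩ := (hev1.and ((eventually_gt_atTop n0).and
    ((eventually_ge_atTop k1).and (eventually_ge_atTop (B.sup r))))).exists
  have hsep := hk1.mono hk4
  have hsep' : ∀ β ∈ B, ∀ β' ∈ B, ∀ d ∈ Φ.F n (t β), ∀ d' ∈ Φ.F n (t β'), br d k = br d' k →
      d = d' := by
    intro β hβ β' hβ' d hd d' hd' heq
    by_contra hne
    exact hsep d (Finset.mem_biUnion.2 ⟨β, hβ, hd⟩) d' (Finset.mem_biUnion.2 ⟨β', hβ', hd'⟩) hne heq
  -- step f: the sets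
  let I : List Bool → Set Br := fun β => {c ∈ J3 β |
    (∑ i ∈ (Lev.fin (I := Tree) (k + 1)).toFinset, |Φ.y c (ev i) - Φ.y (t β) (ev i)| < Φ.ε n / 2) ∧
    (∀ j < k, c j = t β j) ∧
    (∀ i ∈ (Lev.fin (I := Tree) (k + 1)).toFinset, (i ∈ Pat β c ↔ i ∈ Pat β (t β))) ∧
    (∑ d ∈ (R β).attach, |Lm (br d.1) (Φ.y c) - Lm (br d.1) (Φ.y (t β))| < Φ.ε n / 2)}
  have hI : ∀ β ∈ B, ¬ (I β).Countable := by
    intro β hβ hcon
    have h1 := ht1 β hβ
    have h2 : ¬ ∃ U, IsOpen U ∧ Θ β (t β) ∈ U ∧ {c' ∈ J3 β | Θ β c' ∈ U}.Countable :=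
      fun hU => h1.1.2 ⟨h1.1.1, hU⟩
    apply h2
    refine ⟨{θ | (∑ i ∈ (Lev.fin (I := Tree) (k + 1)).toFinset, |θ.1 i - (Θ β (t β)).1 i| < Φ.ε n / 2) ∧
      (∀ j < k, θ.2.1 j = (Θ β (t β)).2.1 j) ∧
      (∀ i ∈ (Lev.fin (I := Tree) (k + 1)).toFinset, θ.2.2.1 i = (Θ β (t β)).2.2.1 i) ∧
      (∑ d ∈ (R β).attach, |θ.2.2.2 d - (Θ β (t β)).2.2.2 d| < Φ.ε n / 2)}, ?_, ?_, ?_⟩
    · apply IsOpen.inter
      · exact isOpen_lt (f := fun θ : (Tree → ℝ) × (ℕ → Bool) × (Tree → Bool) × (R β → ℝ) =>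
          ∑ i ∈ (Lev.fin (I := Tree) (k + 1)).toFinset, |θ.1 i - (Θ β (t β)).1 i|)
          (by fun_prop) continuous_const
      apply IsOpen.inter
      · have : {θ : (Tree → ℝ) × (ℕ → Bool) × (Tree → Bool) × (R β → ℝ) |
            ∀ j < k, θ.2.1 j = (Θ β (t β)).2.1 j} =
            ⋂ j ∈ Finset.range k, {θ | θ.2.1 j = (Θ β (t β)).2.1 j} := by
          ext θ
          simp
        change IsOpen {θ : (Tree → ℝ) × (ℕ → Bool) × (Tree → Bool) × (R β → ℝ) |
            ∀ j < k, θ.2.1 j = (Θ β (t β)).2.1 j}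
        rw [this]
        apply isOpen_biInter_finset
        intro j _
        exact (isOpen_discrete {(Θ β (t β)).2.1 j}).preimage (by fun_prop :
          Continuous fun θ : (Tree → ℝ) × (ℕ → Bool) × (Tree → Bool) × (R β → ℝ) => θ.2.1 j)
      apply IsOpen.inter
      · have : {θ : (Tree → ℝ) × (ℕ → Bool) × (Tree → Bool) × (R β → ℝ) |
            ∀ i ∈ (Lev.fin (I := Tree) (k + 1)).toFinset, θ.2.2.1 i = (Θ β (t β)).2.2.1 i} =
            ⋂ i ∈ (Lev.fin (I := Tree) (k + 1)).toFinset, {θ | θ.2.2.1 i = (Θ β (t β)).2.2.1 i} := by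
          ext θ
          simp
        change IsOpen {θ : (Tree → ℝ) × (ℕ → Bool) × (Tree → Bool) × (R β → ℝ) |
            ∀ i ∈ (Lev.fin (I := Tree) (k + 1)).toFinset, θ.2.2.1 i = (Θ β (t β)).2.2.1 i}
        rw [this]
        apply isOpen_biInter_finset
        intro i _
        exact (isOpen_discrete {(Θ β (t β)).2.2.1 i}).preimage (by fun_prop :
          Continuous fun θ : (Tree → ℝ) × (ℕ → Bool) × (Tree → Bool) × (R β → ℝ) => θ.2.2.1 i)
      · exact isOpen_lt (f := fun θ : (Tree → ℝ) × (ℕ → Bool) × (Tree → Bool) × (R β → ℝ) =>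
          ∑ d ∈ (R β).attach, |θ.2.2.2 d - (Θ β (t β)).2.2.2 d|)
          (by fun_prop) continuous_const
    · refine ⟨?_, fun _ _ => rfl, fun _ _ => rfl, ?_⟩
      · simp only [sub_self, abs_zero, Finset.sum_const_zero]
        exact half_pos (Φ.εpos n)
      · simp only [sub_self, abs_zero, Finset.sum_const_zero]
        exact half_pos (Φ.εpos n)
    · refine hcon.mono ?_
      rintro c ⟨hc, g1, g2, g3, g4⟩
      refine ⟨hc, g1, g2, ?_, g4⟩
      intro i hi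
      have := g3 i hi
      change decide (i ∈ Pat β c) = decide (i ∈ Pat β (t β)) at this
      exact decide_eq_decide.1 this
  have hlev : ∀ d : Br, lev (br d k) = k := fun d => IsBr.lev_eq k
  have hmemfin : ∀ d : Br, br d k ∈ (Lev.fin (I := Tree) (k + 1)).toFinset := by
    intro d
    rw [Set.Finite.mem_toFinset, Set.mem_ofPred_eq, hlev]
    omega
  -- close to the trunk
  have hcl : ∀ β, ∀ c ∈ I β, ‖cut (Φ.y c - Φ.y (t β)) (lo Tree (k + 1))‖ ≤ Φ.ε n / 2 := by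
    intro β c hc
    refine (norm_cut_lo_le _ _).trans ?_
    simp_rw [_root_.sub_apply]
    exact hc.2.1.le
  have hclR : ∀ β, ∀ c ∈ I β,
      ‖∑ d ∈ R β, (Lm (br d) (Φ.y c) - Lm (br d) (Φ.y (t β))) • sg (br d) k‖ ≤ Φ.ε n / 2 := by
    intro β c hc
    refine (norm_sum_le _ _).trans (le_trans ?_ hc.2.2.2.2.le)
    rw [← Finset.sum_attach (R β)]
    apply Finset.sum_le_sum
    intro d _
    rw [norm_smul, Real.norm_eq_abs]
    exact mul_le_of_le_one_right (abs_nonneg _) (norm_sg_le _ _)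
  have hpat : ∀ β, ∀ c ∈ I β, ∀ d ∈ Φ.F n c, d ∉ R β →
      ∃ d' ∈ Φ.F n (t β), d' ∉ R β ∧ br d' k = br d k := by
    intro β c hc d hd hdR
    have h1 : br d k ∈ Pat β (t β) := (hc.2.2.2.1 (br d k) (hmemfin d)).1 ⟨d, hd, hdR, k, rfl⟩
    obtain ⟨d', hd', hdR', k', hk'⟩ := h1
    have : k' = k := by
      have := congrArg lev hk'
      rwa [IsBr.lev_eq, IsBr.lev_eq] at this
    subst this
    exact ⟨d', hd', hdR', hk'⟩
  have hmain : ∀ β, ∀ c ∈ I β, br c k = br (t β) k := by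
    intro β c hc
    change (List.range k).map c = (List.range k).map (t β)
    rw [List.map_inj_left]
    intro j hj
    exact hc.2.2.1 j (List.mem_range.1 hj)
  refine ⟨k, I, R, fun β => br (t β) k, fun β => (Φ.F n (t β) \ R β).image (fun d => br d k), hk3,
    ?_, ?_, ?_, ?_, ?_, ?_⟩
  · intro β hβ
    refine ⟨hI β hβ, ?_, ?_, ?_, ?_, ?_, ?_, ?_, ?_, ?_⟩
    · intro c hc
      exact hA0 β hβ ((hJ1 β hβ).1 hc.1.1.1)
    · intro c hc
      exact (hJ1 β hβ).2.2.1 c hc.1.1.1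
    · intro d hd
      refine ((hJ1 β hβ).2.2.2 d hd).mono ?_
      intro c hc
      exact ⟨hc.1.1.1.1, hc.2⟩
    · intro c hc
      have h1 : Φ.ρ n c = r β := hc.1.2
      rw [h1]
      exact (Finset.le_sup (f := r) hβ).trans hk5
    · intro c hc c' hc'
      have h1 := hcl β c hc
      have h2 := hcl β c' hc'
      have h3 : cut (Φ.y c - Φ.y c') (lo Tree (k + 1)) =
          cut (Φ.y c - Φ.y (t β)) (lo Tree (k + 1)) - cut (Φ.y c' - Φ.y (t β)) (lo Tree (k + 1)) := by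
        rw [← cut_sub]
        congr 1
        abel
      rw [h3]
      exact (norm_sub_le _ _).trans (by linarith)
    · intro c hc c' hc'
      have h1 := hclR β c hc
      have h2 := hclR β c' hc'
      have h3 : ∑ d ∈ R β, (Lm (br d) (Φ.y c) - Lm (br d) (Φ.y c')) • sg (br d) k =
          ∑ d ∈ R β, (Lm (br d) (Φ.y c) - Lm (br d) (Φ.y (t β))) • sg (br d) k -
          ∑ d ∈ R β, (Lm (br d) (Φ.y c') - Lm (br d) (Φ.y (t β))) • sg (br d) k := by
        rw [← Finset.sum_sub_distrib]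
        apply Finset.sum_congr rfl
        intro d _
        rw [show Lm (br d) (Φ.y c) - Lm (br d) (Φ.y c') = (Lm (br d) (Φ.y c) -
          Lm (br d) (Φ.y (t β))) - (Lm (br d) (Φ.y c') - Lm (br d) (Φ.y (t β))) by ring]
        exact sub_smul (Lm (br d) (Φ.y c) - Lm (br d) (Φ.y (t β)))
          (Lm (br d) (Φ.y c') - Lm (br d) (Φ.y (t β))) (sg (br d) k)
      rw [h3]
      exact (norm_sub_le _ _).trans (by linarith)
    · intro c hc d hd hdR
      obtain ⟨d', h1, h2, h3⟩ := hpat β c hc d hd hdR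
      exact Finset.mem_image.2 ⟨d', Finset.mem_sdiff.2 ⟨h1, h2⟩, h3⟩
    · intro c hc
      exact hmain β c hc
    · intro q hq
      obtain ⟨d, _, rfl⟩ := Finset.mem_image.1 hq
      exact hlev d
  · intro β hβ c hc
    exact (hJ1 β hβ).1 hc.1.1.1
  · intro α hα β hβ hne
    rw [Finset.disjoint_left]
    intro i h1 h2
    obtain ⟨d, hd, rfl⟩ := Finset.mem_image.1 h1
    obtain ⟨d', hd', heq⟩ := Finset.mem_image.1 h2
    rw [Finset.mem_sdiff] at hd hd'
    have := hsep' β hβ α hα d' hd'.1 d hd.1 heq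
    subst this
    exact ht2 α hα β hβ hne (Or.inl ⟨d', hd.1, hd.2, hd'.1, hd'.2⟩)
  · intro α hα β hβ hne c hc d hd heq
    have key : ∃ d' ∈ Φ.F n (t β), br d' k = br (t α) k := by
      by_cases hdR : d ∈ R β
      · exact ⟨d, (hJ1 β hβ).2.2.1 (t β) (h41 β (ht1 β hβ)) hdR, heq⟩
      · obtain ⟨d', h1, _, h3⟩ := hpat β c hc d hd hdR
        exact ⟨d', h1, h3.trans heq⟩
    obtain ⟨d', h1, h2⟩ := key
    have := hsep' β hβ α hα d' h1 (t α) (Φ.F_self n _) h2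
    subst this
    exact ht2 α hα β hβ hne (Or.inr (Or.inl h1))
  · intro β hβ c hc d hd hdQ hdR
    exact hc.1.1.2 ⟨(hJ1 β hβ).1 hc.1.1.1, d, hdR, hdQ, hd⟩
  · intro α hα β hβ
    exact hk2 α hα β hβ

/-- finite sets of members with different non-root branches -/
lemma exists_many (Φ : Fam) (n : ℕ) {I : Set Br} {R : Finset Br} (hI : ¬ I.Countable)
    (hctb : ∀ d, d ∉ R → {c ∈ I | d ∈ Φ.F n c}.Countable) :
    ∃ C : Finset Br, C.Nonempty ∧ (∀ c ∈ C, c ∈ I) ∧ Φ.M ≤ Φ.ε n * √(C.card : ℝ) ∧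
      ∀ c ∈ C, ∀ c' ∈ C, c ≠ c' → ∀ d ∈ Φ.F n c, d ∈ Φ.F n c' → d ∈ R := by
  classical
  obtain ⟨m, hm⟩ := exists_nat_ge (Φ.M / Φ.ε n)
  have hεn := Φ.εpos n
  obtain ⟨f, hf1, hf2⟩ := choose_many (Finset.range ((m + 1) ^ 2)) (fun _ => I) (fun _ _ => hI)
    (fun _ _ c c' => c = c' ∨ ∃ d, d ∈ Φ.F n c ∧ d ∈ Φ.F n c' ∧ d ∉ R)
    (by
      rintro i j c c' (h | ⟨d, h1, h2, h3⟩)
      · exact Or.inl h.symm
      · exact Or.inr ⟨d, h2, h1, h3⟩)
    (by
      intro i hi j hj _ c hc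
      have e1 : (⋃ d ∈ {d | d ∈ Φ.F n c ∧ d ∉ R}, {c' ∈ I | d ∈ Φ.F n c'}).Countable := by
        apply Set.Countable.biUnion
        · exact (Φ.F n c).countable_toSet.mono fun d hd => hd.1
        · intro d hd
          exact hctb d hd.2
      refine (e1.union (Set.countable_singleton c)).mono ?_
      rintro c' ⟨hc', (h | ⟨d, h1, h2, h3⟩)⟩
      · exact Or.inr h.symm
      · exact Or.inl (Set.mem_iUnion₂.2 ⟨d, ⟨h1, h3⟩, hc', h2⟩))
  have hinj : Set.InjOn f (Finset.range ((m + 1) ^ 2) : Set ℕ) := by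
    intro i hi j hj hij
    by_contra hne
    exact hf2 i (Finset.mem_coe.1 hi) j (Finset.mem_coe.1 hj) hne (Or.inl hij)
  have hcard : ((Finset.range ((m + 1) ^ 2)).image f).card = (m + 1) ^ 2 := by
    rw [Finset.card_image_of_injOn hinj, Finset.card_range]
  refine ⟨(Finset.range ((m + 1) ^ 2)).image f, ?_, ?_, ?_, ?_⟩
  · rw [← Finset.card_pos, hcard]
    positivity
  · intro c hc
    obtain ⟨i, hi, rfl⟩ := Finset.mem_image.1 hc
    exact hf1 i hi
  · rw [hcard]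
    push_cast
    rw [Real.sqrt_sq (by positivity)]
    rw [div_le_iff₀ hεn] at hm
    nlinarith
  · intro c hc c' hc' hne d hd hd'
    obtain ⟨i, hi, rfl⟩ := Finset.mem_image.1 hc
    obtain ⟨j, hj, rfl⟩ := Finset.mem_image.1 hc'
    by_contra hdR
    have hij : i ≠ j := fun h => hne (by rw [h])
    exact hf2 i hi j hj hij (Or.inr ⟨d, hd, hd', hdR⟩)

/-- the words of a given length -/
noncomputable def words (n : ℕ) : Finset (List Bool) := (List.finite_length_eq Bool n).toFinset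

lemma mem_words {n : ℕ} {α : List Bool} : α ∈ words n ↔ α.length = n := by
  unfold words
  rw [Set.Finite.mem_toFinset]
  exact Iff.rfl

/-- the words of length at most `n` -/
noncomputable def wordsle (n : ℕ) : Finset (List Bool) := (List.finite_length_le Bool n).toFinset

lemma mem_wordsle {n : ℕ} {α : List Bool} : α ∈ wordsle n ↔ α.length ≤ n := by
  unfold wordsle
  rw [Set.Finite.mem_toFinset]
  exact Iff.rfl

/-- the scheme of nested sets -/
theorem exists_scheme (Φ : Fam) :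
    ∃ f : ℕ → St, (∀ n, Inv Φ n (f n)) ∧ ∀ n, Rl Φ n (f n) (f (n + 1)) := by
  classical
  apply dep_choice
  · obtain ⟨k, I, R, p, N, h1, h2, h3, h4, h5, h6, h7⟩ := refine_nodes Φ 0 {[]} (fun _ => Φ.I0)
      (fun _ _ => Φ.unc) (fun _ _ => Subset.rfl) 0 (fun _ => ∅) (fun _ => ∅)
      (fun _ _ _ _ => by simp) ∅ (fun _ => 0)
    have hl : ∀ α : List Bool, α.length = 0 → α ∈ ({[]} : Finset (List Bool)) := by
      intro α hα
      rw [List.length_eq_zero_iff.1 hα]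
      exact Finset.mem_singleton_self _
    exact ⟨⟨k, I, R, fun _ => 0, p, N⟩, fun α hα => h2 α (hl α hα),
      fun α β hα hβ => h4 α (hl α hα) β (hl β hβ), fun α β hα hβ => h5 α (hl α hα) β (hl β hβ)⟩
  · intro n s hs
    have hC : ∀ α : List Bool, ∃ C : Finset Br, α.length = n → C.Nonempty ∧ (∀ c ∈ C, c ∈ s.I α) ∧
        Φ.M ≤ Φ.ε n * √(C.card : ℝ) ∧
        ∀ c ∈ C, ∀ c' ∈ C, c ≠ c' → ∀ d ∈ Φ.F n c, d ∈ Φ.F n c' → d ∈ s.R α := by
      intro α
      by_cases hα : α.length = n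
      · obtain ⟨C, hC⟩ := exists_many Φ n (hs.nd α hα).unc (hs.nd α hα).ctb
        exact ⟨C, fun _ => hC⟩
      · exact ⟨∅, fun h => absurd h hα⟩
    choose C hC using hC
    let g : List Bool → D Tree := fun α =>
      if α.length = n then ((C α).card : ℝ)⁻¹ • ∑ c ∈ C α, Φ.y c else s.g α
    have hsepC : ∀ α : List Bool, ∃ k, Sep ((C α).biUnion (Φ.F n)) k := fun α => exists_sep _
    choose κ hκ using hsepC
    have hdl : ∀ β : List Bool, β.length = n + 1 → β.dropLast.length = n := by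
      intro β hβ
      rw [List.length_dropLast, hβ]
      rfl
    obtain ⟨k, I, R, p, N, h1, h2, h3, h4, h5, h6, h7⟩ := refine_nodes Φ (n + 1) (words (n + 1))
      (fun β => s.I β.dropLast)
      (fun β hβ => (hs.nd _ (hdl β (mem_words.1 hβ))).unc)
      (fun β hβ => (hs.nd _ (hdl β (mem_words.1 hβ))).sub)
      (max s.k ((words n).sup κ)) (Φ.F n) (fun β => s.R β.dropLast)
      (fun β hβ => (hs.nd _ (hdl β (mem_words.1 hβ))).ctb) (wordsle n) g
    refine ⟨⟨k, I, R, g, p, N⟩, ⟨fun α hα => h2 α (mem_words.2 hα),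
      fun α β hα hβ => h4 α (mem_words.2 hα) β (mem_words.2 hβ),
      fun α β hα hβ => h5 α (mem_words.2 hα) β (mem_words.2 hβ)⟩, ?_⟩
    refine ⟨(le_max_left _ _).trans_lt h1, fun β hβ => h3 β (mem_words.2 hβ),
      fun β hβ => h6 β (mem_words.2 hβ), ?_, ?_, ?_⟩
    · intro α hα
      change (if α.length = n then _ else s.g α) = s.g α
      rw [if_neg (by omega)]
    · intro α hα
      obtain ⟨e1, e2, e3, e4⟩ := hC α hα
      refine ⟨C α, e1, e2, e3, e4, ?_, ?_⟩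
      · intro c hc c' hc' d hd d' hd' hne
        have h8 : κ α ≤ k := ((Finset.le_sup (f := κ) (mem_words.2 hα)).trans
          (le_max_right _ _)).trans h1.le
        exact (hκ α).mono h8 d (Finset.mem_biUnion.2 ⟨c, hc, hd⟩) d'
          (Finset.mem_biUnion.2 ⟨c', hc', hd'⟩) hne
      · change (if α.length = n then _ else s.g α) = _
        rw [if_pos hα]
    · intro α β hα hβ
      exact h7 α (mem_wordsle.2 hα) β (mem_words.2 hβ)

end Pool.Agent.D0H29.JT
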